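import Mathlib
import Pool.Agent.P.MP_92a118_co.LinAlg

/-! The combinatorial core without the pyramid hypothesis (after `Core1`). -/

namespace Pool.Agent.P.MP_92a118_co.J

open Module Finset

/-- Generators `V` of a cone and `U` of the dual cone with integral pairing. -/
structure Set0 (E : Type) [AddCommGroup E] [Module ℝ E] where
  V : Finset E
  U : Finset (Dual ℝ E)
  m : Dual ℝ E
  lam : E → ℝ
  hint : ∀ u ∈ U, ∀ v ∈ V, ∃ k : ℕ, u v = k
  hm : ∀ v ∈ V, m v = 1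
  hlam : ∀ v ∈ V, 0 < lam v
  hU1 : ∀ u ∈ U, ∑ v ∈ V, lam v * u v = 1
  hdual : ∀ φ : Dual ℝ E, (∀ v ∈ V, 0 ≤ φ v) →
    ∃ κ : Dual ℝ E → ℝ, (∀ u ∈ U, 0 ≤ κ u) ∧ φ = ∑ u ∈ U, κ u • u

variable {E : Type} [AddCommGroup E] [Module ℝ E]

namespace Set0

variable (S : Set0 E)

theorem nonneg {u : Dual ℝ E} (hu : u ∈ S.U) {v : E} (hv : v ∈ S.V) : 0 ≤ u v := by
  obtain ⟨k, hk⟩ := S.hint u hu v hv
  rw [hk]; positivity

theorem exists_bound (φ : Dual ℝ E) : ∃ K : ℝ, 0 ≤ K ∧ ∀ v ∈ S.V, φ v ≤ K := by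
  refine ⟨∑ v ∈ S.V, |φ v|, Finset.sum_nonneg (fun v _ => abs_nonneg _), fun v hv => ?_⟩
  exact (le_abs_self _).trans (Finset.single_le_sum (f := fun v => |φ v|)
    (fun v _ => abs_nonneg _) hv)

theorem separates {x : E} (hx : ∀ u ∈ S.U, u x = 0) : x = 0 := by
  have hcone : ∀ φ : Dual ℝ E, (∀ v ∈ S.V, 0 ≤ φ v) → φ x = 0 := by
    intro φ hφ
    obtain ⟨κ, -, hκ⟩ := S.hdual φ hφ
    rw [hκ, LinearMap.sum_apply]
    refine Finset.sum_eq_zero (fun u hu => ?_)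
    simp [hx u hu]
  have hm : S.m x = 0 := hcone S.m (fun v hv => by rw [S.hm v hv]; norm_num)
  refine (Module.forall_dual_apply_eq_zero_iff ℝ x).mp (fun φ => ?_)
  obtain ⟨K, -, hK⟩ := S.exists_bound φ
  have := hcone (K • S.m - φ) (fun v hv => by
    simp only [LinearMap.sub_apply, LinearMap.smul_apply, S.hm v hv, smul_eq_mul, mul_one]
    linarith [hK v hv])
  simp only [LinearMap.sub_apply, LinearMap.smul_apply, hm, smul_eq_mul, mul_zero] at this
  linarith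

/-- A Cayley-type family: elements of `U` whose sum is at most one on `V`. -/
structure Fam (S : Set0 E) (I : Type) [Fintype I] where
  uu : I → Dual ℝ E
  huu : ∀ i, uu i ∈ S.U
  hsum : ∀ v ∈ S.V, ∑ i, uu i v ≤ 1

end Set0

namespace Set0.Fam

variable {S : Set0 E} {I : Type} [Fintype I] [DecidableEq I] (F : S.Fam I)

open Classical in
/-- The block of `V` on which the `i`-th functional is one. -/
noncomputable def Vi (i : I) : Finset E := S.V.filter (fun v => F.uu i v = 1)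

omit [DecidableEq I] in
theorem mem_Vi {i : I} {v : E} : v ∈ F.Vi i ↔ v ∈ S.V ∧ F.uu i v = 1 := by
  unfold Vi; simp

omit [DecidableEq I] in
theorem uu_le_one (i : I) {v : E} (hv : v ∈ S.V) : F.uu i v ≤ 1 :=
  (Finset.single_le_sum (f := fun i => F.uu i v) (fun j _ => S.nonneg (F.huu j) hv)
    (Finset.mem_univ i)).trans (F.hsum v hv)

omit [DecidableEq I] in
theorem uu_zero_or_one (i : I) {v : E} (hv : v ∈ S.V) : F.uu i v = 0 ∨ F.uu i v = 1 := by
  obtain ⟨k, hk⟩ := S.hint _ (F.huu i) v hv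
  have h1 := F.uu_le_one i hv
  rw [hk] at h1 ⊢
  have : k ≤ 1 := by exact_mod_cast h1
  interval_cases k <;> simp

theorem uu_of_mem {i k : I} {v : E} (hv : v ∈ F.Vi i) : F.uu k v = if k = i then 1 else 0 := by
  rw [F.mem_Vi] at hv
  split_ifs with h
  · rw [h]; exact hv.2
  · have h1 := F.hsum v hv.1
    rw [← Finset.add_sum_erase _ _ (Finset.mem_univ i), hv.2] at h1
    have h2 : F.uu k v ≤ ∑ j ∈ Finset.univ.erase i, F.uu j v :=
      Finset.single_le_sum (f := fun j => F.uu j v) (fun j _ => S.nonneg (F.huu j) hv.1)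
        (by simp [h])
    have h3 := S.nonneg (F.huu k) hv.1
    linarith

omit [DecidableEq I] in
theorem sum_Vi (i : I) (g : E → ℝ) :
    ∑ v ∈ F.Vi i, S.lam v * g v = ∑ v ∈ S.V, S.lam v * g v * F.uu i v := by
  classical
  unfold Vi
  rw [Finset.sum_filter]
  refine Finset.sum_congr rfl (fun v hv => ?_)
  rcases F.uu_zero_or_one i hv with h | h
  · rw [h]; simp
  · rw [h]; simp

omit [DecidableEq I] in
theorem sum_lam_Vi (i : I) : ∑ v ∈ F.Vi i, S.lam v = 1 := by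
  have := F.sum_Vi i (fun _ => 1)
  simp only [mul_one] at this
  rw [this]; exact S.hU1 _ (F.huu i)

omit [DecidableEq I] in
theorem Vi_nonempty (i : I) : (F.Vi i).Nonempty := by
  by_contra h
  rw [Finset.not_nonempty_iff_eq_empty] at h
  have := F.sum_lam_Vi i
  rw [h] at this
  simp at this

/-- `u` is not constant on the `i`-th block. -/
def Sees (u : Dual ℝ E) (i : I) : Prop := ∃ v ∈ F.Vi i, ∃ v' ∈ F.Vi i, u v ≠ u v'

/-- The span of the differences inside the blocks of `J`. -/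
def W (J : Finset I) : Submodule ℝ E :=
  Submodule.span ℝ {x | ∃ i ∈ J, ∃ v ∈ F.Vi i, ∃ v' ∈ F.Vi i, x = v - v'}

omit [DecidableEq I] in
theorem sub_mem_W {J : Finset I} {i : I} (hi : i ∈ J) {v v' : E} (hv : v ∈ F.Vi i)
    (hv' : v' ∈ F.Vi i) : v - v' ∈ F.W J :=
  Submodule.subset_span ⟨i, hi, v, hv, v', hv', rfl⟩

omit [DecidableEq I] in
theorem W_mono {J J' : Finset I} (h : J ⊆ J') : F.W J ≤ F.W J' := by
  apply Submodule.span_mono
  rintro x ⟨i, hi, v, hv, v', hv', rfl⟩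
  exact ⟨i, h hi, v, hv, v', hv', rfl⟩

omit [DecidableEq I] in
theorem vanish_W {J : Finset I} {u : Dual ℝ E} (h : ∀ i ∈ J, ¬ F.Sees u i) :
    ∀ x ∈ F.W J, u x = 0 := by
  intro x hx
  have : F.W J ≤ LinearMap.ker u := by
    apply Submodule.span_le.mpr
    rintro x ⟨i, hi, v, hv, v', hv', rfl⟩
    have h1 : u v = u v' := by
      by_contra hne
      exact h i hi ⟨v, hv, v', hv', hne⟩
    simp [h1]
  exact this hx

omit [DecidableEq I] in
theorem not_sees_of_vanish {J : Finset I} {u : Dual ℝ E} (h : ∀ x ∈ F.W J, u x = 0) {i : I}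
    (hi : i ∈ J) : ¬ F.Sees u i := by
  rintro ⟨v, hv, v', hv', hne⟩
  have := h _ (F.sub_mem_W hi hv hv')
  rw [map_sub] at this
  exact hne (by linarith)

/-- The minimum of `u` on the `i`-th block. -/
noncomputable def mn (u : Dual ℝ E) (i : I) : ℝ := (F.Vi i).inf' (F.Vi_nonempty i) u

/-- The average of `u` on the `i`-th block minus its minimum. -/
noncomputable def h (u : Dual ℝ E) (i : I) : ℝ := ∑ v ∈ F.Vi i, S.lam v * (u v - F.mn u i)

omit [DecidableEq I] in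
theorem mn_le (u : Dual ℝ E) {i : I} {v : E} (hv : v ∈ F.Vi i) : F.mn u i ≤ u v :=
  Finset.inf'_le _ hv

omit [DecidableEq I] in
theorem exists_mn (u : Dual ℝ E) (i : I) : ∃ v ∈ F.Vi i, F.mn u i = u v :=
  Finset.exists_mem_eq_inf' _ _

omit [DecidableEq I] in
theorem h_nonneg (u : Dual ℝ E) (i : I) : 0 ≤ F.h u i :=
  Finset.sum_nonneg (fun v hv => mul_nonneg (S.hlam v (F.mem_Vi.mp hv).1).le
    (sub_nonneg.mpr (F.mn_le u hv)))

omit [DecidableEq I] in
theorem h_eq_zero {u : Dual ℝ E} {i : I} (hs : ¬ F.Sees u i) : F.h u i = 0 := by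
  refine Finset.sum_eq_zero (fun v hv => ?_)
  obtain ⟨v0, hv0, h0⟩ := F.exists_mn u i
  have : u v = u v0 := by
    by_contra hne
    exact hs ⟨v, hv, v0, hv0, hne⟩
  rw [h0, this, sub_self, mul_zero]

omit [DecidableEq I] in
theorem exists_gap {u : Dual ℝ E} (hu : u ∈ S.U) {i : I} (hs : F.Sees u i) :
    ∃ v ∈ F.Vi i, F.mn u i + 1 ≤ u v := by
  obtain ⟨v0, hv0, h0⟩ := F.exists_mn u i
  have : ∃ v ∈ F.Vi i, u v ≠ u v0 := by
    obtain ⟨v, hv, v', hv', hne⟩ := hs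
    by_cases h : u v = u v0
    · exact ⟨v', hv', fun h' => hne (h.trans h'.symm)⟩
    · exact ⟨v, hv, h⟩
  obtain ⟨v, hv, hne⟩ := this
  refine ⟨v, hv, ?_⟩
  have hle := F.mn_le u hv
  rw [h0] at hle ⊢
  obtain ⟨k, hk⟩ := S.hint u hu v (F.mem_Vi.mp hv).1
  obtain ⟨k0, hk0⟩ := S.hint u hu v0 (F.mem_Vi.mp hv0).1
  rw [hk, hk0] at hne hle ⊢
  have h1 : k0 ≤ k := by exact_mod_cast hle
  have h2 : k ≠ k0 := fun h => hne (by rw [h])
  have h3 : k0 + 1 ≤ k := by omega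
  exact_mod_cast h3

omit [DecidableEq I] in
theorem h_pos {u : Dual ℝ E} (hu : u ∈ S.U) {i : I} (hs : F.Sees u i) : 0 < F.h u i := by
  obtain ⟨v, hv, h1⟩ := F.exists_gap hu hs
  refine Finset.sum_pos' (fun v hv => mul_nonneg (S.hlam v (F.mem_Vi.mp hv).1).le
    (sub_nonneg.mpr (F.mn_le u hv))) ⟨v, hv, ?_⟩
  exact mul_pos (S.hlam v (F.mem_Vi.mp hv).1) (by linarith)

omit [DecidableEq I] in
theorem sum_h_le {u : Dual ℝ E} (hu : u ∈ S.U) : ∑ i, F.h u i ≤ 1 := by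
  have h1 : ∀ i, F.h u i ≤ ∑ v ∈ S.V, S.lam v * u v * F.uu i v := by
    intro i
    rw [← F.sum_Vi]
    refine Finset.sum_le_sum (fun v hv => ?_)
    obtain ⟨v0, hv0, h0⟩ := F.exists_mn u i
    have := S.nonneg hu (F.mem_Vi.mp hv0).1
    have h2 := S.hlam v (F.mem_Vi.mp hv).1
    rw [h0]
    nlinarith
  calc ∑ i, F.h u i ≤ ∑ i, ∑ v ∈ S.V, S.lam v * u v * F.uu i v := Finset.sum_le_sum (fun i _ => h1 i)
    _ = ∑ v ∈ S.V, S.lam v * u v * ∑ i, F.uu i v := by
        rw [Finset.sum_comm]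
        refine Finset.sum_congr rfl (fun v _ => ?_)
        rw [Finset.mul_sum]
    _ ≤ ∑ v ∈ S.V, S.lam v * u v := by
        refine Finset.sum_le_sum (fun v hv => ?_)
        have h2 := mul_nonneg (S.hlam v hv).le (S.nonneg hu hv)
        have h3 := F.hsum v hv
        nlinarith
    _ = 1 := S.hU1 u hu

omit [DecidableEq I] in
/-- If a combination is constant on the block, its excess over the minima is the averaged excess. -/
theorem excess_eq {C : Type} [Fintype C] (c : C → Dual ℝ E) (κ : C → ℝ) {i : I}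
    (hconst : ∀ v ∈ F.Vi i, ∀ v' ∈ F.Vi i, ∑ a, κ a * c a v = ∑ a, κ a * c a v')
    {v : E} (hv : v ∈ F.Vi i) :
    ∑ a, κ a * (c a v - F.mn (c a) i) = ∑ a, κ a * F.h (c a) i := by
  have h1 : ∑ a, κ a * F.h (c a) i
      = ∑ v' ∈ F.Vi i, S.lam v' * ∑ a, κ a * (c a v' - F.mn (c a) i) := by
    unfold h
    simp only [Finset.mul_sum]
    rw [Finset.sum_comm]
    refine Finset.sum_congr rfl (fun v' _ => Finset.sum_congr rfl (fun a _ => by ring))
  have h2 : ∀ v' ∈ F.Vi i, ∑ a, κ a * (c a v' - F.mn (c a) i)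
      = ∑ a, κ a * (c a v - F.mn (c a) i) := by
    intro v' hv'
    simp only [mul_sub, Finset.sum_sub_distrib]
    rw [hconst v' hv' v hv]
  have h3 : ∑ v' ∈ F.Vi i, S.lam v' * ∑ a, κ a * (c a v' - F.mn (c a) i)
      = ∑ v' ∈ F.Vi i, S.lam v' * ∑ a, κ a * (c a v - F.mn (c a) i) :=
    Finset.sum_congr rfl (fun v' hv' => by rw [h2 v' hv'])
  rw [h1, h3, ← Finset.sum_mul, F.sum_lam_Vi, one_mul]

omit [DecidableEq I] in
theorem one_le_sum_h {C : Type} [Fintype C] (c : C → Dual ℝ E) (hc : ∀ a, c a ∈ S.U)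
    (κ : C → ℝ) (hκ : ∀ a, 0 < κ a) {i : I}
    (hconst : ∀ v ∈ F.Vi i, ∀ v' ∈ F.Vi i, ∑ a, κ a * c a v = ∑ a, κ a * c a v')
    (hs : ∃ a, F.Sees (c a) i) : 1 ≤ ∑ a, F.h (c a) i := by
  classical
  have hne : (Finset.univ.filter (fun a => F.Sees (c a) i)).Nonempty := by
    obtain ⟨a, ha⟩ := hs
    exact ⟨a, by simp [ha]⟩
  obtain ⟨a0, ha0, hmax⟩ := Finset.exists_max_image _ κ hne
  simp only [Finset.mem_filter, Finset.mem_univ, true_and] at ha0 hmax
  obtain ⟨v, hv, hgap⟩ := F.exists_gap (hc a0) ha0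
  have h1 := F.excess_eq c κ hconst hv
  have h2 : κ a0 ≤ ∑ a, κ a * (c a v - F.mn (c a) i) := by
    refine le_trans ?_ (Finset.single_le_sum (f := fun a => κ a * (c a v - F.mn (c a) i))
      (fun a _ => mul_nonneg (hκ a).le (sub_nonneg.mpr (F.mn_le _ hv))) (Finset.mem_univ a0))
    have := hκ a0
    nlinarith
  have h3 : ∑ a, κ a * F.h (c a) i ≤ κ a0 * ∑ a, F.h (c a) i := by
    rw [Finset.mul_sum]
    refine Finset.sum_le_sum (fun a _ => ?_)
    by_cases ha : F.Sees (c a) i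
    · exact mul_le_mul_of_nonneg_right (hmax a ha) (F.h_nonneg _ _)
    · rw [F.h_eq_zero ha]; simp
  have h4 : κ a0 * 1 ≤ κ a0 * ∑ a, F.h (c a) i := by linarith
  exact le_of_mul_le_mul_left h4 (hκ a0)

omit [DecidableEq I] in
theorem m_vanish (J : Finset I) : ∀ x ∈ F.W J, S.m x = 0 := by
  apply F.vanish_W
  rintro i - ⟨v, hv, v', hv', hne⟩
  exact hne (by rw [S.hm v (F.mem_Vi.mp hv).1, S.hm v' (F.mem_Vi.mp hv').1])

omit [DecidableEq I] in
theorem exists_circuit (J : Finset I) (u0 : Dual ℝ E) :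
    ∃ B : Finset (Dual ℝ E), B ⊆ S.U ∧ ∃ μ : Dual ℝ E → ℝ, (∀ b ∈ B, 0 < μ b) ∧
      LinearIndependent ℝ (fun b : B => (b : Dual ℝ E).domRestrict (F.W J)) ∧
      ∀ x ∈ F.W J, u0 x + ∑ b ∈ B, μ b * b x = 0 := by
  classical
  obtain ⟨K, -, hK⟩ := S.exists_bound u0
  obtain ⟨κ, hκ, hsum⟩ := S.hdual (K • S.m - u0) (fun v hv => by
    simp only [LinearMap.sub_apply, LinearMap.smul_apply, S.hm v hv, smul_eq_mul, mul_one]
    linarith [hK v hv])
  obtain ⟨B, hB, μ, hμ, hind, hsum'⟩ :=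
    conic_caratheodory (fun u : Dual ℝ E => u.domRestrict (F.W J)) S.U κ hκ
  refine ⟨B, hB, μ, hμ, hind, fun x hx => ?_⟩
  have h1 := congrArg (fun φ : Dual ℝ (F.W J) => φ ⟨x, hx⟩) hsum'
  simp only [LinearMap.sum_apply, LinearMap.smul_apply, LinearMap.domRestrict_apply,
    smul_eq_mul] at h1
  have h2 := congrArg (fun φ : Dual ℝ E => φ x) hsum
  simp only [LinearMap.sum_apply, LinearMap.smul_apply, LinearMap.sub_apply, smul_eq_mul,
    F.m_vanish J x hx] at h2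
  linarith

omit [DecidableEq I] in
theorem circuit_const {J : Finset I} {u0 : Dual ℝ E} {B : Finset (Dual ℝ E)}
    {μ : Dual ℝ E → ℝ} (hrel : ∀ x ∈ F.W J, u0 x + ∑ b ∈ B, μ b * b x = 0) {i : I} (hi : i ∈ J) :
    ∀ v ∈ F.Vi i, ∀ v' ∈ F.Vi i,
      ∑ a : Option B, (Option.elim a 1 (fun b => μ b) : ℝ) *
          (Option.elim a u0 (fun b => (b : Dual ℝ E)) : Dual ℝ E) v
        = ∑ a : Option B, (Option.elim a 1 (fun b => μ b) : ℝ) *
          (Option.elim a u0 (fun b => (b : Dual ℝ E)) : Dual ℝ E) v' := by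
  intro v hv v' hv'
  have h1 := hrel _ (F.sub_mem_W hi hv hv')
  simp only [map_sub, mul_sub, Finset.sum_sub_distrib] at h1
  simp only [Fintype.sum_option, Option.elim, one_mul]
  rw [Finset.sum_coe_sort B (fun b => μ b * b v), Finset.sum_coe_sort B (fun b => μ b * b v')]
  linarith

end Set0.Fam

end Pool.Agent.P.MP_92a118_co.J
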