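import Mathlib
import Pool.Agent.P.MP_92a118_co.J.A1

/-! Essential subfamilies split off as blocks. -/

namespace Pool.Agent.P.MP_92a118_co.J

open Module Finset

variable {E : Type} [AddCommGroup E] [Module ℝ E]

/-- A set of generators of dimension `2s+1` and weight `s+1` such that every dual generator
vanishes on it, or vanishes outside it and takes only the values zero and one. -/
structure Set0.IsBlock (S : Set0 E) (W : Finset E) (s : ℕ) : Prop where
  sub : W ⊆ S.V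
  dim : finrank ℝ (Submodule.span ℝ (W : Set E)) = 2 * s + 1
  wt : ∑ v ∈ W, S.lam v = s + 1
  cut : ∀ u ∈ S.U, (∀ v ∈ W, u v = 0) ∨ ((∀ v ∈ S.V, v ∉ W → u v = 0) ∧ ∀ v ∈ S.V, u v ≤ 1)

theorem Set0.vanish_off (S : Set0 E) {u : Dual ℝ E} (hu : u ∈ S.U) {A : Finset E} (hA : A ⊆ S.V)
    (h : 1 ≤ ∑ v ∈ A, S.lam v * u v) :
    (∀ v ∈ S.V, v ∉ A → u v = 0) ∧ ∑ v ∈ A, S.lam v * u v = 1 := by
  classical
  have h1 := S.hU1 u hu
  rw [← Finset.sum_sdiff hA] at h1
  have h2 : ∀ v ∈ S.V \ A, 0 ≤ S.lam v * u v := fun v hv =>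
    mul_nonneg (S.hlam v (Finset.mem_sdiff.mp hv).1).le (S.nonneg hu (Finset.mem_sdiff.mp hv).1)
  have h3 := Finset.sum_nonneg h2
  refine ⟨fun v hv hvA => ?_, by linarith⟩
  have h4 := (Finset.sum_eq_zero_iff_of_nonneg h2).mp (by linarith) v (Finset.mem_sdiff.mpr ⟨hv, hvA⟩)
  exact (mul_eq_zero.mp h4).resolve_left (S.hlam v hv).ne'

namespace Set0.Fam

variable {S : Set0 E} {I : Type} [Fintype I] [DecidableEq I] (F : S.Fam I)

open Classical in
/-- The union of the blocks of `T`. -/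
noncomputable def VT (T : Finset I) : Finset E := T.biUnion F.Vi

omit [DecidableEq I] in
theorem mem_VT {T : Finset I} {v : E} : v ∈ F.VT T ↔ ∃ i ∈ T, v ∈ F.Vi i := by
  unfold VT; simp

omit [DecidableEq I] in
theorem VT_sub (T : Finset I) : F.VT T ⊆ S.V := fun v hv => by
  obtain ⟨i, -, hi⟩ := F.mem_VT.mp hv
  exact (F.mem_Vi.mp hi).1

theorem eq_of_mem {i k : I} {v : E} (hi : v ∈ F.Vi i) (hk : v ∈ F.Vi k) : k = i := by
  have h1 := F.uu_of_mem (k := k) hi
  rw [(F.mem_Vi.mp hk).2] at h1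
  by_contra h
  simp [h] at h1

theorem sum_VT (T : Finset I) (g : E → ℝ) : ∑ v ∈ F.VT T, g v = ∑ i ∈ T, ∑ v ∈ F.Vi i, g v := by
  classical
  unfold VT
  refine Finset.sum_biUnion (f := g) (s := T) (t := F.Vi) ?_
  intro i _ k _ hik
  exact Finset.disjoint_left.mpr fun v hi hk => hik (F.eq_of_mem hk hi)

omit [DecidableEq I] in
theorem h_eq (u : Dual ℝ E) (i : I) : F.h u i = ∑ v ∈ F.Vi i, S.lam v * u v - F.mn u i := by
  unfold h
  simp only [mul_sub, Finset.sum_sub_distrib, ← Finset.sum_mul, F.sum_lam_Vi, one_mul]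

omit [DecidableEq I] in
theorem mn_nonneg {u : Dual ℝ E} (hu : u ∈ S.U) (i : I) : 0 ≤ F.mn u i := by
  obtain ⟨v, hv, h⟩ := F.exists_mn u i
  rw [h]; exact S.nonneg hu (F.mem_Vi.mp hv).1

omit [DecidableEq I] in
theorem eq_mn {u : Dual ℝ E} {i : I} (hs : ¬ F.Sees u i) {v : E} (hv : v ∈ F.Vi i) :
    u v = F.mn u i := by
  obtain ⟨v0, hv0, h0⟩ := F.exists_mn u i
  by_contra hne
  exact hs ⟨v, hv, v0, hv0, fun h => hne (h.trans h0.symm)⟩

theorem tight_vanish {u : Dual ℝ E} (hu : u ∈ S.U) {J : Finset I} (h : 1 ≤ ∑ i ∈ J, F.h u i) :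
    (∀ v ∈ S.V, v ∉ F.VT J → u v = 0) ∧ ∀ i ∈ J, F.mn u i = 0 := by
  simp only [F.h_eq, Finset.sum_sub_distrib, ← F.sum_VT] at h
  have h1 : 0 ≤ ∑ i ∈ J, F.mn u i := Finset.sum_nonneg fun i _ => F.mn_nonneg hu i
  obtain ⟨h2, h3⟩ := S.vanish_off hu (F.VT_sub J) (by linarith)
  exact ⟨h2, (Finset.sum_eq_zero_iff_of_nonneg fun i _ => F.mn_nonneg hu i).mp (by linarith)⟩

omit [DecidableEq I] in
theorem width_le {C : Type} [Fintype C] (c : C → Dual ℝ E) (hc : ∀ a, c a ∈ S.U)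
    (κ : C → ℝ) (hκ : ∀ a, 0 < κ a) {i : I}
    (hconst : ∀ v ∈ F.Vi i, ∀ v' ∈ F.Vi i, ∑ a, κ a * c a v = ∑ a, κ a * c a v')
    (hle : ∑ a, F.h (c a) i ≤ 1) {a1 : C} (hs : F.Sees (c a1) i) {v : E} (hv : v ∈ F.Vi i) :
    c a1 v ≤ F.mn (c a1) i + 1 := by
  classical
  obtain ⟨a0, ha0, hmax⟩ := Finset.exists_max_image
    (Finset.univ.filter (fun a => F.Sees (c a) i)) κ ⟨a1, by simp [hs]⟩
  simp only [Finset.mem_filter, Finset.mem_univ, true_and] at ha0 hmax
  have single : ∀ a, ∀ w ∈ F.Vi i, κ a * (c a w - F.mn (c a) i) ≤ ∑ a, κ a * F.h (c a) i := by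
    intro a w hw
    rw [← F.excess_eq c κ hconst hw]
    exact Finset.single_le_sum (f := fun a => κ a * (c a w - F.mn (c a) i))
      (fun a _ => mul_nonneg (hκ a).le (sub_nonneg.mpr (F.mn_le _ hw))) (Finset.mem_univ a)
  obtain ⟨v0, hv0, hgap⟩ := F.exists_gap (hc a0) ha0
  have h1 := single a0 v0 hv0
  have h2 : (κ a0 - κ a1) * F.h (c a1) i ≤ ∑ a, (κ a0 - κ a) * F.h (c a) i := by
    refine Finset.single_le_sum (f := fun a => (κ a0 - κ a) * F.h (c a) i) (fun a _ => ?_)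
      (Finset.mem_univ a1)
    by_cases ha : F.Sees (c a) i
    · exact mul_nonneg (sub_nonneg.mpr (hmax a ha)) (F.h_nonneg _ _)
    · rw [F.h_eq_zero ha, mul_zero]
  simp only [sub_mul (κ a0), Finset.sum_sub_distrib, ← Finset.mul_sum] at h2
  have h3 := F.h_pos (hc a1) hs
  have h4 := hκ a0
  have h5 := hκ a1
  have h6 := hmax a1 hs
  have h7 := single a1 v hv
  have h8 : κ a0 * ∑ a, F.h (c a) i ≤ κ a0 := by nlinarith
  have h9 : κ a0 ≤ κ a1 := by nlinarith
  have h10 : κ a1 * (c a1 v - F.mn (c a1) i) ≤ κ a1 * 1 := by nlinarith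
  have := le_of_mul_le_mul_left h10 h5
  linarith

/-- An essential subfamily. -/
def Ess (T : Finset I) : Prop :=
  finrank ℝ (F.W T) < T.card ∧ ∀ T' ⊂ T, T'.card ≤ finrank ℝ (F.W T')

variable [FiniteDimensional ℝ E]

theorem cut_of_sees {T : Finset I} (hT : F.Ess T) {u0 : Dual ℝ E} (hu0 : u0 ∈ S.U) {i0 : I}
    (hi0 : i0 ∈ T) (hs : F.Sees u0 i0) :
    (∀ v ∈ S.V, v ∉ F.VT T → u0 v = 0) ∧ ∀ v ∈ S.V, u0 v ≤ 1 := by
  classical
  obtain ⟨B, hB, μ, hμ, hind, hrel⟩ := F.exists_circuit T u0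
  let c : Option B → Dual ℝ E := fun a => Option.elim a u0 (fun b => (b : Dual ℝ E))
  let κ : Option B → ℝ := fun a => Option.elim a 1 (fun b => μ b)
  have hc : ∀ a, c a ∈ S.U := by rintro (_ | b); exacts [hu0, hB b.2]
  have hκ : ∀ a, 0 < κ a := by rintro (_ | b); exacts [one_pos, hμ b b.2]
  set J := T.filter (fun i => ∃ a, F.Sees (c a) i) with hJ
  have hJT : J ⊆ T := Finset.filter_subset _ _
  have d1 := finrank_add_card_le _ _
    (F.W_mono (Finset.filter_subset (fun i => ¬ ∃ a, F.Sees (c a) i) T))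
    (fun b : B => (b : Dual ℝ E)) hind (by
      intro b
      apply F.vanish_W
      intro i hi hs
      exact (Finset.mem_filter.mp hi).2 ⟨some b, hs⟩)
  have d2 := hT.2 (T.filter (fun i => ¬ ∃ a, F.Sees (c a) i)) (by
    rw [Finset.filter_ssubset]
    exact ⟨i0, hi0, not_not.mpr ⟨none, hs⟩⟩)
  have d3 := Finset.card_filter_add_card_filter_not (s := T) (fun i => ∃ a, F.Sees (c a) i)
  have d4 := hT.1
  have d5 : Fintype.card (Option B) ≤ J.card := by
    rw [Fintype.card_option]; rw [← hJ] at d3; omega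
  have d6 : (Fintype.card (Option B) : ℝ) ≤ J.card := by exact_mod_cast d5
  have e1 : ∀ i ∈ J, 0 ≤ ∑ a, F.h (c a) i - 1 := fun i hi => sub_nonneg.mpr
    (F.one_le_sum_h c hc κ hκ (F.circuit_const hrel (hJT hi)) (Finset.mem_filter.mp hi).2)
  have e2 : ∀ a ∈ (Finset.univ : Finset (Option B)), 0 ≤ 1 - ∑ i ∈ J, F.h (c a) i :=
    fun a _ => sub_nonneg.mpr ((Finset.sum_le_sum_of_subset_of_nonneg (Finset.subset_univ _)
      (fun i _ _ => F.h_nonneg _ _)).trans (F.sum_h_le (hc a)))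
  have e3 := Finset.sum_nonneg e1
  have e4 := Finset.sum_nonneg e2
  have e5 : ∑ i ∈ J, (∑ a, F.h (c a) i - 1) + ∑ a, (1 - ∑ i ∈ J, F.h (c a) i)
      = (Fintype.card (Option B) : ℝ) - J.card := by
    simp only [Finset.sum_sub_distrib, Finset.sum_const, nsmul_eq_mul, mul_one, Finset.card_univ]
    rw [Finset.sum_comm]; ring
  have e6 := (Finset.sum_eq_zero_iff_of_nonneg e1).mp (by linarith)
  have e7 := (Finset.sum_eq_zero_iff_of_nonneg e2).mp (by linarith) none (Finset.mem_univ _)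
  obtain ⟨f1, f2⟩ := F.tight_vanish hu0 (J := J) (by
    have : ∑ i ∈ J, F.h (c none) i = ∑ i ∈ J, F.h u0 i := rfl
    linarith)
  refine ⟨fun v hv hvT => f1 v hv fun h => hvT ?_, fun v hv => ?_⟩
  · obtain ⟨i, hi, h⟩ := F.mem_VT.mp h
    exact F.mem_VT.mpr ⟨i, hJT hi, h⟩
  · by_cases h : v ∈ F.VT J
    · obtain ⟨i, hi, h⟩ := F.mem_VT.mp h
      by_cases hsi : F.Sees u0 i
      · have := F.width_le c hc κ hκ (F.circuit_const hrel (hJT hi)) (by linarith [e6 i hi])
          (a1 := none) hsi h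
        have h' : u0 v ≤ F.mn u0 i + 1 := this
        rw [f2 i hi] at h'
        linarith
      · rw [F.eq_mn hsi h, f2 i hi]; norm_num
    · rw [f1 v hv h]; norm_num

theorem cut {T : Finset I} (hT : F.Ess T) {u : Dual ℝ E} (hu : u ∈ S.U) :
    (∀ v ∈ F.VT T, u v = 0) ∨
      ((∀ v ∈ S.V, v ∉ F.VT T → u v = 0) ∧ ∀ v ∈ S.V, u v ≤ 1) := by
  by_cases hs : ∃ i ∈ T, F.Sees u i
  · obtain ⟨i, hi, hs⟩ := hs
    exact Or.inr (F.cut_of_sees hT hu hi hs)
  push Not at hs
  by_cases h0 : ∀ v ∈ F.VT T, u v = 0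
  · exact Or.inl h0
  push Not at h0
  obtain ⟨v0, hv0, hne⟩ := h0
  obtain ⟨i, hi, hv0⟩ := F.mem_VT.mp hv0
  have h1 : ∑ v ∈ F.Vi i, S.lam v * u v = F.mn u i := by
    rw [Finset.sum_congr rfl (fun v hv => by rw [F.eq_mn (hs i hi) hv]), ← Finset.sum_mul,
      F.sum_lam_Vi, one_mul]
  have h2 : 1 ≤ F.mn u i := by
    obtain ⟨k, hk⟩ := S.hint u hu v0 (F.mem_Vi.mp hv0).1
    rw [← F.eq_mn (hs i hi) hv0, hk]
    rw [hk] at hne
    exact_mod_cast Nat.one_le_iff_ne_zero.mpr (by exact_mod_cast hne)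
  obtain ⟨h3, h4⟩ := S.vanish_off hu (A := F.Vi i) (fun v hv => (F.mem_Vi.mp hv).1) (by linarith)
  refine Or.inr ⟨fun v hv hvT => h3 v hv fun h => hvT (F.mem_VT.mpr ⟨i, hi, h⟩), fun v hv => ?_⟩
  by_cases h : v ∈ F.Vi i
  · rw [F.eq_mn (hs i hi) h]; linarith
  · rw [h3 v hv h]; norm_num

theorem finrank_VT (T : Finset I) :
    finrank ℝ (Submodule.span ℝ (F.VT T : Set E)) = finrank ℝ (F.W T) + T.card := by
  classical
  set Y := Submodule.span ℝ (F.VT T : Set E) with hYdef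
  have hY : ∀ i ∈ T, ∀ v ∈ F.Vi i, v ∈ Y := fun i hi v hv =>
    Submodule.subset_span (F.mem_VT.mpr ⟨i, hi, hv⟩)
  have hWY : F.W T ≤ Y := by
    apply Submodule.span_le.mpr
    rintro x ⟨i, hi, v, hv, v', hv', rfl⟩
    exact Y.sub_mem (hY i hi v hv) (hY i hi v' hv')
  apply le_antisymm
  · choose b hb using F.Vi_nonempty
    have h1 : Y ≤ F.W T ⊔ Submodule.span ℝ ((T.image b : Finset E) : Set E) := by
      apply Submodule.span_le.mpr
      intro v hv
      obtain ⟨i, hi, hv⟩ := F.mem_VT.mp hv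
      have : v = (v - b i) + b i := by abel
      rw [this]
      exact Submodule.add_mem_sup (F.sub_mem_W hi hv (hb i))
        (Submodule.subset_span (by simpa using ⟨i, hi, rfl⟩))
    have h2 := Submodule.finrank_mono h1
    have h3 := Submodule.finrank_add_le_finrank_add_finrank (F.W T)
      (Submodule.span ℝ ((T.image b : Finset E) : Set E))
    have h4 : finrank ℝ (Submodule.span ℝ ((T.image b : Finset E) : Set E)) ≤ (T.image b).card :=
      finrank_span_finset_le_card _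
    have h5 : (T.image b).card ≤ T.card := Finset.card_image_le
    omega
  · have := finrank_add_card_le _ _ hWY (fun i : T => F.uu i) (by
      rw [Fintype.linearIndependent_iff]
      intro g hg k
      obtain ⟨v, hv⟩ := F.Vi_nonempty k
      have := congrArg (fun φ : Dual ℝ Y => φ ⟨v, hY k k.2 v hv⟩) hg
      simp only [LinearMap.sum_apply, LinearMap.smul_apply, LinearMap.domRestrict_apply,
        smul_eq_mul, F.uu_of_mem hv] at this
      simpa [Subtype.coe_inj] using this) (by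
      intro i
      apply F.vanish_W
      rintro k - ⟨v, hv, v', hv', hne⟩
      exact hne (by rw [F.uu_of_mem hv, F.uu_of_mem hv']))
    simpa using this

theorem isBlock {T : Finset I} (hT : F.Ess T) : S.IsBlock (F.VT T) (T.card - 1) := by
  have h1 := hT.1
  obtain ⟨i, hi⟩ : T.Nonempty := Finset.card_pos.mp (by omega)
  have h2 := hT.2 _ (Finset.erase_ssubset hi)
  have h3 := Submodule.finrank_mono (F.W_mono (Finset.erase_subset i T))
  rw [Finset.card_erase_of_mem hi] at h2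
  refine ⟨F.VT_sub T, by rw [F.finrank_VT]; omega, ?_, fun u hu => F.cut hT hu⟩
  rw [F.sum_VT, Finset.sum_congr rfl (fun i _ => F.sum_lam_Vi i)]
  rw [Nat.cast_sub (by omega)]
  simp

theorem exists_ess (J : Finset I) : ∃ L : Finset (Finset I), (∀ T ∈ L, F.Ess T ∧ T ⊆ J) ∧
    (∀ T ∈ L, ∀ T' ∈ L, T ≠ T' → Disjoint T T') ∧ J.card ≤ finrank ℝ (F.W J) + L.card := by
  classical
  induction J using Finset.strongInduction with
  | H J ih =>
    by_cases h : J.card ≤ finrank ℝ (F.W J)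
    · exact ⟨∅, by simp, by simp, by simpa using h⟩
    obtain ⟨T, hT, hmin⟩ := Finset.exists_min_image
      (J.powerset.filter fun T => finrank ℝ (F.W T) < T.card) Finset.card
      ⟨J, by simpa using h⟩
    simp only [Finset.mem_filter, Finset.mem_powerset] at hT hmin
    have hE : F.Ess T := ⟨hT.2, fun T' hT' => by
      by_contra hc
      exact absurd (hmin T' ⟨hT'.subset.trans hT.1, not_le.mp hc⟩)
        (not_le.mpr (Finset.card_lt_card hT'))⟩
    have hne : T.Nonempty := Finset.card_pos.mp (by have := hT.2; omega)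
    obtain ⟨L, h1, h2, h3⟩ := ih (J \ T) (Finset.sdiff_ssubset hT.1 hne)
    have hdis : ∀ T' ∈ L, Disjoint T T' := fun T' hT' =>
      Finset.disjoint_of_subset_right (h1 T' hT').2 Finset.disjoint_sdiff
    have hTL : T ∉ L := fun hc => hne.ne_empty (by simpa using hdis T hc)
    refine ⟨insert T L, ?_, ?_, ?_⟩
    · intro T' hT'
      rcases Finset.mem_insert.mp hT' with rfl | hT'
      · exact ⟨hE, hT.1⟩
      · exact ⟨(h1 T' hT').1, (h1 T' hT').2.trans Finset.sdiff_subset⟩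
    · intro A hA B hB hAB
      rcases Finset.mem_insert.mp hA with rfl | hA' <;>
        rcases Finset.mem_insert.mp hB with rfl | hB'
      · exact absurd rfl hAB
      · exact hdis B hB'
      · exact (hdis A hA').symm
      · exact h2 A hA' B hB' hAB
    · have hinf : F.W T ⊓ F.W (J \ T) = ⊥ := by
        rw [eq_bot_iff]
        intro x hx
        refine S.separates fun u hu => ?_
        rcases F.cut hE hu with h0 | h0
        · refine F.vanish_W (J := T) ?_ x hx.1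
          rintro i hi ⟨v, hv, v', hv', hne⟩
          exact hne (by rw [h0 v (F.mem_VT.mpr ⟨i, hi, hv⟩), h0 v' (F.mem_VT.mpr ⟨i, hi, hv'⟩)])
        · have key : ∀ i ∈ J \ T, ∀ v ∈ F.Vi i, u v = 0 := fun i hi v hv =>
            h0.1 v (F.mem_Vi.mp hv).1 fun hc => by
              obtain ⟨k, hk, hvk⟩ := F.mem_VT.mp hc
              exact (Finset.mem_sdiff.mp hi).2 (F.eq_of_mem hvk hv ▸ hk)
          refine F.vanish_W (J := J \ T) ?_ x hx.2
          rintro i hi ⟨v, hv, v', hv', hne⟩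
          exact hne (by rw [key i hi v hv, key i hi v' hv'])
      have h4 := Submodule.finrank_sup_add_finrank_inf_eq (F.W T) (F.W (J \ T))
      rw [hinf, finrank_bot] at h4
      have h5 := Submodule.finrank_mono
        (sup_le (F.W_mono hT.1) (F.W_mono (Finset.sdiff_subset (s := J) (t := T))))
      have h6 := (F.isBlock hE).dim
      rw [F.finrank_VT] at h6
      have h7 := Finset.card_sdiff_add_card_eq_card hT.1
      have h8 := hne.card_pos
      rw [Finset.card_insert_of_notMem hTL]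
      omega

end Set0.Fam

end Pool.Agent.P.MP_92a118_co.J
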