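import Mathlib
import Pool.Agent.P.MP_92a118_co.J.A2

/-! A maximal family gives at least `2r - n` blocks. -/

namespace Pool.Agent.P.MP_92a118_co.J

open Module Finset

variable {E : Type} [AddCommGroup E] [Module ℝ E]

namespace Set0.Fam

variable {S : Set0 E} {I : Type} [Fintype I] (F : S.Fam I)

theorem weighted_sum : ∑ v ∈ S.V, S.lam v * ∑ i, F.uu i v = Fintype.card I := by
  simp only [Finset.mul_sum]
  rw [Finset.sum_comm, Finset.sum_congr rfl (fun i _ => S.hU1 _ (F.huu i))]
  simp

include F in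
theorem card_le : (Fintype.card I : ℝ) ≤ ∑ v ∈ S.V, S.lam v := by
  rw [← F.weighted_sum]
  refine Finset.sum_le_sum (fun v hv => ?_)
  have := F.hsum v hv
  have := S.hlam v hv
  nlinarith

theorem sum_zero_or_one {v : E} (hv : v ∈ S.V) : ∑ i, F.uu i v = 0 ∨ ∑ i, F.uu i v = 1 := by
  choose k hk using fun i => S.hint _ (F.huu i) v hv
  have h1 := F.hsum v hv
  have h2 : ∑ i, F.uu i v = ((∑ i, k i : ℕ) : ℝ) := by
    push_cast
    exact Finset.sum_congr rfl (fun i _ => hk i)
  rw [h2] at h1 ⊢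
  have h3 : ∑ i, k i ≤ 1 := by exact_mod_cast h1
  generalize ∑ i, k i = n at h3
  interval_cases n <;> simp

end Set0.Fam

namespace Set0

variable [FiniteDimensional ℝ E] (S : Set0 E)

theorem exists_fam : ∃ (p : ℕ) (F : S.Fam (Fin p)),
    2 * ∑ v ∈ S.V, S.lam v + finrank ℝ (F.W Finset.univ) ≤ finrank ℝ E + p := by
  classical
  set r := ∑ v ∈ S.V, S.lam v with hr
  let P : ℕ → Prop := fun p => Nonempty (S.Fam (Fin p))
  have hP0 : P 0 := ⟨⟨Fin.elim0, fun i => i.elim0, fun v _ => by simp⟩⟩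
  have hbd : ∀ p, P p → p ≤ ⌈r⌉₊ := by
    rintro p ⟨F⟩
    have := F.card_le
    rw [Fintype.card_fin] at this
    exact_mod_cast this.trans (Nat.le_ceil r)
  obtain ⟨p, ⟨F⟩, hmax⟩ : ∃ p, P p ∧ ¬ P (p + 1) := by
    refine ⟨Nat.findGreatest P ⌈r⌉₊, Nat.findGreatest_spec (Nat.zero_le _) hP0, fun h => ?_⟩
    exact Nat.findGreatest_is_greatest (Nat.lt_succ_self _) (hbd _ h) h
  set w : Dual ℝ E := S.m - ∑ i, F.uu i with hw
  have hwv : ∀ v ∈ S.V, w v = 1 - ∑ i, F.uu i v := by
    intro v hv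
    simp [hw, S.hm v hv, LinearMap.sum_apply]
  obtain ⟨κ, hκ, hsum⟩ := S.hdual w (fun v hv => by
    rw [hwv v hv]; linarith [F.hsum v hv])
  obtain ⟨B, hB, μ, hμ, hind, hsum'⟩ := conic_caratheodory (fun u : Dual ℝ E => u) S.U κ hκ
  rw [← hsum] at hsum'
  have hwB : ∀ v, w v = ∑ b ∈ B, μ b * b v := by
    intro v
    rw [hsum']
    simp [LinearMap.sum_apply]
  have hle : ∀ b ∈ B, ∀ v ∈ S.V, μ b * b v ≤ w v := by
    intro b hb v hv
    rw [hwB]
    exact Finset.single_le_sum (f := fun b => μ b * b v)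
      (fun b hb => mul_nonneg (hμ b hb).le (S.nonneg (hB hb) hv)) hb
  have hhalf : ∀ b ∈ B, μ b ≤ 1 / 2 := by
    intro b hb
    by_contra hcon
    push Not at hcon
    apply hmax
    refine ⟨⟨Fin.cons b F.uu, ?_, ?_⟩⟩
    · intro i
      refine Fin.cases ?_ (fun j => ?_) i
      · exact hB hb
      · exact F.huu j
    · intro v hv
      rw [Fin.sum_univ_succ]
      simp only [Fin.cons_zero, Fin.cons_succ]
      have h1 := hle b hb v hv
      rw [hwv v hv] at h1
      obtain ⟨k, hk⟩ := S.hint b (hB hb) v hv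
      rw [hk] at h1 ⊢
      rcases F.sum_zero_or_one hv with h | h
      · rw [h] at h1 ⊢
        have h2 : (k : ℝ) < 2 := by
          by_contra h3
          push Not at h3
          nlinarith
        have h3 : k < 2 := by exact_mod_cast h2
        have h4 : k ≤ 1 := by omega
        have h5 : (k : ℝ) ≤ 1 := by exact_mod_cast h4
        linarith
      · rw [h] at h1 ⊢
        have h2 : (0 : ℝ) ≤ k := by positivity
        nlinarith
  have hcount : r - p = ∑ b ∈ B, μ b := by
    have h1 : ∑ v ∈ S.V, S.lam v * w v = r - p := by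
      rw [Finset.sum_congr rfl (fun v hv => by rw [hwv v hv])]
      simp only [mul_sub, mul_one, Finset.sum_sub_distrib]
      rw [F.weighted_sum, Fintype.card_fin]
    rw [← h1]
    simp only [hwB, Finset.mul_sum]
    rw [Finset.sum_comm]
    refine Finset.sum_congr rfl (fun b hb => ?_)
    have := S.hU1 b (hB hb)
    calc ∑ v ∈ S.V, S.lam v * (μ b * b v) = μ b * ∑ v ∈ S.V, S.lam v * b v := by
          rw [Finset.mul_sum]
          exact Finset.sum_congr rfl (fun v _ => by ring)
      _ = μ b := by rw [this, mul_one]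
  have hf := Finset.sum_le_card_nsmul B μ (1 / 2) hhalf
  rw [← hcount, nsmul_eq_mul] at hf
  have d1 := F.finrank_VT Finset.univ
  have d2 := finrank_add_card_le (Submodule.span ℝ (F.VT Finset.univ : Set E)) ⊤ le_top
    (fun b : B => (b : Dual ℝ E)) (by
      rw [Fintype.linearIndependent_iff] at hind ⊢
      intro g hg
      apply hind g
      ext x
      have := congrArg (fun φ : Dual ℝ (⊤ : Submodule ℝ E) => φ ⟨x, trivial⟩) hg
      simpa [LinearMap.sum_apply] using this) (by
      intro b x hx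
      have : Submodule.span ℝ (F.VT Finset.univ : Set E) ≤ LinearMap.ker (b : Dual ℝ E) := by
        apply Submodule.span_le.mpr
        intro v hv
        obtain ⟨i, -, hv⟩ := F.mem_VT.mp hv
        have hv' := F.mem_Vi.mp hv
        have h1 := hle b b.2 v hv'.1
        have h2 : w v = 0 := by
          rw [hwv v hv'.1]
          simp [F.uu_of_mem hv]
        have h3 := S.nonneg (hB b.2) hv'.1
        have h4 := hμ b b.2
        rw [h2] at h1
        have h5 : (b : Dual ℝ E) v ≤ 0 := by
          by_contra h6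
          push Not at h6
          nlinarith
        exact le_antisymm h5 h3
      exact this hx)
  simp only [Fintype.card_fin, Finset.card_univ, Fintype.card_coe, finrank_top] at d1 d2
  have d3 : finrank ℝ (F.W Finset.univ) + p + B.card ≤ finrank ℝ E := by omega
  have d4 : (finrank ℝ (F.W Finset.univ) : ℝ) + p + B.card ≤ finrank ℝ E := by exact_mod_cast d3
  exact ⟨p, F, by linarith⟩

theorem exists_blocks : ∃ (t : ℕ) (W : Fin t → Finset E) (s : Fin t → ℕ),
    (∀ k, S.IsBlock (W k) (s k)) ∧ (∀ k l, k ≠ l → Disjoint (W k) (W l)) ∧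
    2 * ∑ v ∈ S.V, S.lam v ≤ finrank ℝ E + t := by
  classical
  obtain ⟨p, F, h⟩ := S.exists_fam
  obtain ⟨L, h1, h2, h3⟩ := F.exists_ess Finset.univ
  let e := L.equivFin.symm
  refine ⟨L.card, fun k => F.VT (e k), fun k => (e k : Finset (Fin p)).card - 1,
    fun k => F.isBlock (h1 _ (e k).2).1, fun k l hkl => ?_, ?_⟩
  · refine Finset.disjoint_left.mpr fun v hk hl => ?_
    obtain ⟨i, hi, hvi⟩ := F.mem_VT.mp hk
    obtain ⟨j, hj, hvj⟩ := F.mem_VT.mp hl
    have := h2 _ (e k).2 _ (e l).2 fun hc => hkl (e.injective (Subtype.ext hc))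
    exact Finset.disjoint_left.mp this hi (F.eq_of_mem hvj hvi ▸ hj)
  · rw [Finset.card_univ, Fintype.card_fin] at h3
    have h4 : (p : ℝ) ≤ finrank ℝ (F.W Finset.univ) + L.card := by exact_mod_cast h3
    linarith

end Set0

end Pool.Agent.P.MP_92a118_co.J
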