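import Mathlib
import Pool.Agent.P.MP_92a118_co.J.A3

/-! The primal description of the cone, projections onto blocks, and splitting of the lattice. -/

namespace Pool.Agent.P.MP_92a118_co.J

open Module Finset

variable {E : Type} [NormedAddCommGroup E] [NormedSpace ℝ E]

namespace Set0

variable (S : Set0 E)

theorem primal {x : E} (hx : ∀ u ∈ S.U, 0 ≤ u x) :
    ∃ μ : E → ℝ, (∀ v ∈ S.V, 0 ≤ μ v) ∧ x = ∑ v ∈ S.V, μ v • v := by
  have hcone : ∀ φ : Dual ℝ E, (∀ v ∈ S.V, 0 ≤ φ v) → 0 ≤ φ x := by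
    intro φ hφ
    obtain ⟨κ, hκ, rfl⟩ := S.hdual φ hφ
    rw [LinearMap.sum_apply]
    exact Finset.sum_nonneg fun u hu => mul_nonneg (hκ u hu) (hx u hu)
  have hm : 0 ≤ S.m x := hcone S.m (fun v hv => by rw [S.hm v hv]; norm_num)
  rcases hm.eq_or_lt with hm | hm
  · refine ⟨fun _ => 0, fun _ _ => le_rfl, ?_⟩
    simp only [zero_smul, Finset.sum_const_zero]
    refine S.separates fun u hu => le_antisymm ?_ (hx u hu)
    obtain ⟨K, -, hK⟩ := S.exists_bound u
    have := hcone (K • S.m - u) (fun v hv => by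
      simp only [LinearMap.sub_apply, LinearMap.smul_apply, S.hm v hv, smul_eq_mul, mul_one]
      linarith [hK v hv])
    simp only [LinearMap.sub_apply, LinearMap.smul_apply, ← hm, smul_eq_mul, mul_zero] at this
    linarith
  · have h : (S.m x)⁻¹ • x ∈ convexHull ℝ (S.V : Set E) := by
      by_contra hc
      obtain ⟨f, c, h1, h2⟩ := geometric_hahn_banach_point_closed (convex_convexHull ℝ _)
        (S.V.finite_toSet.isCompact_convexHull ℝ).isClosed hc
      have := hcone ((f : E →ₗ[ℝ] ℝ) - c • S.m) (fun v hv => by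
        have := h2 v (subset_convexHull ℝ _ hv)
        simp only [LinearMap.sub_apply, LinearMap.smul_apply, S.hm v hv, smul_eq_mul, mul_one,
          ContinuousLinearMap.coe_coe]
        linarith)
      simp only [LinearMap.sub_apply, LinearMap.smul_apply, smul_eq_mul,
        ContinuousLinearMap.coe_coe] at this
      rw [map_smul, smul_eq_mul, inv_mul_lt_iff₀ hm] at h1
      linarith
    obtain ⟨c, hc0, -, hc⟩ := Finset.mem_convexHull'.mp h
    refine ⟨fun v => S.m x * c v, fun v hv => mul_nonneg hm.le (hc0 v hv), ?_⟩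
    simp only [mul_smul, ← Finset.smul_sum, hc]
    rw [smul_smul, mul_inv_cancel₀ hm.ne', one_smul]

theorem span_top : Submodule.span ℝ (S.V : Set E) = ⊤ := by
  rw [eq_top_iff]
  intro x _
  have hmem : ∀ μ : E → ℝ, ∑ v ∈ S.V, μ v • v ∈ Submodule.span ℝ (S.V : Set E) := fun μ =>
    Submodule.sum_mem _ fun v hv => Submodule.smul_mem _ _ (Submodule.subset_span hv)
  obtain ⟨μ, -, h⟩ := S.primal (x := x + (∑ u ∈ S.U, |u x|) • ∑ v ∈ S.V, S.lam v • v) (by
    intro u hu
    simp only [map_add, map_smul, map_sum, smul_eq_mul, S.hU1 u hu, mul_one]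
    have h1 := Finset.single_le_sum (f := fun u : Dual ℝ E => |u x|) (fun _ _ => abs_nonneg _) hu
    linarith [neg_abs_le (u x)])
  rw [← eq_sub_iff_add_eq] at h
  rw [h]
  exact Submodule.sub_mem _ (hmem _) (Submodule.smul_mem _ _ (hmem _))

theorem ext_V {G : Type} [AddCommGroup G] [Module ℝ G] {f g : E →ₗ[ℝ] G}
    (h : ∀ v ∈ S.V, f v = g v) : f = g :=
  LinearMap.ext_on S.span_top h

variable {S}

theorem IsBlock.exists_proj {W : Finset E} {s : ℕ} (hW : S.IsBlock W s) :
    ∃ π : E →ₗ[ℝ] E, (∀ v ∈ W, π v = v) ∧ (∀ v ∈ S.V, v ∉ W → π v = 0) ∧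
      ∀ x, π x ∈ Submodule.span ℝ (W : Set E) := by
  have h : IsCompl (Submodule.span ℝ (W : Set E)) (Submodule.span ℝ ((S.V : Set E) \ W)) := by
    constructor
    · rw [disjoint_iff, eq_bot_iff]
      intro x hx
      refine S.separates fun u hu => ?_
      rcases hW.cut u hu with h | h
      · exact (Submodule.span_le.mpr h : _ ≤ LinearMap.ker u) hx.1
      · exact (Submodule.span_le.mpr fun v hv => h.1 v hv.1 hv.2 : _ ≤ LinearMap.ker u) hx.2
    · rw [codisjoint_iff, ← Submodule.span_union, Set.union_sdiff_cancel hW.sub, S.span_top]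
  exact ⟨Submodule.projection _ _ h,
    fun v hv => Submodule.projection_apply_of_mem_left h (Submodule.subset_span hv),
    fun v hv hv' => Submodule.projection_apply_of_mem_right h (Submodule.subset_span ⟨hv, hv'⟩),
    Submodule.projection_apply_mem h⟩

theorem IsBlock.primal {W : Finset E} {s : ℕ} (hW : S.IsBlock W s) {x : E}
    (hxW : x ∈ Submodule.span ℝ (W : Set E)) (hx : ∀ u ∈ S.U, 0 ≤ u x) :
    ∃ μ : E → ℝ, (∀ v ∈ W, 0 ≤ μ v) ∧ x = ∑ v ∈ W, μ v • v := by
  classical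
  obtain ⟨π, h1, h2, -⟩ := hW.exists_proj
  obtain ⟨μ, hμ, h⟩ := S.primal hx
  refine ⟨μ, fun v hv => hμ v (hW.sub hv), ?_⟩
  have h3 : π x = x := LinearMap.eqOn_span (f := π) (g := LinearMap.id) h1 hxW
  rw [← h3]
  conv_lhs => rw [h, map_sum, ← Finset.sum_sdiff hW.sub]
  rw [Finset.sum_eq_zero fun v hv => by
    rw [map_smul, h2 v (Finset.mem_sdiff.mp hv).1 (Finset.mem_sdiff.mp hv).2, smul_zero], zero_add]
  exact Finset.sum_congr rfl fun v hv => by rw [map_smul, h1 v hv]

theorem IsBlock.greedy_nat {W : Finset E} {s : ℕ} (hW : S.IsBlock W s) (Λ : AddSubgroup E)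
    (hΛ : ∀ v ∈ W, v ∈ Λ) (N : ℕ) : ∀ x ∈ Submodule.span ℝ (W : Set E),
      (∀ u ∈ S.U, ∃ k : ℕ, u x = k) → S.m x ≤ N → x ∈ Λ := by
  induction N with
  | zero =>
    intro x hxW hx hN
    obtain ⟨μ, hμ, h⟩ := hW.primal hxW fun u hu => by
      obtain ⟨k, hk⟩ := hx u hu; rw [hk]; positivity
    have h1 : S.m x = ∑ v ∈ W, μ v := by
      rw [h, map_sum]
      exact Finset.sum_congr rfl fun v hv => by rw [map_smul, S.hm v (hW.sub hv)]; simp
    have h2 := (Finset.sum_eq_zero_iff_of_nonneg hμ).mp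
      (le_antisymm (by simpa [h1] using hN) (Finset.sum_nonneg hμ))
    rw [h, Finset.sum_eq_zero fun v hv => by rw [h2 v hv, zero_smul]]
    exact Λ.zero_mem
  | succ N ih =>
    intro x hxW hx hN
    obtain ⟨μ, hμ, h⟩ := hW.primal hxW fun u hu => by
      obtain ⟨k, hk⟩ := hx u hu; rw [hk]; positivity
    by_cases h0 : ∀ v ∈ W, μ v = 0
    · rw [h, Finset.sum_eq_zero fun v hv => by rw [h0 v hv, zero_smul]]
      exact Λ.zero_mem
    push Not at h0
    obtain ⟨v, hv, hne⟩ := h0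
    have hpos : 0 < μ v := lt_of_le_of_ne (hμ v hv) hne.symm
    have key : x - v ∈ Λ := by
      refine ih _ (Submodule.sub_mem _ hxW (Submodule.subset_span hv)) (fun u hu => ?_) ?_
      · obtain ⟨k, hk⟩ := hx u hu
        obtain ⟨j, hj⟩ := S.hint u hu v (hW.sub hv)
        have hj1 : j ≤ 1 := by
          rcases hW.cut u hu with h' | h'
          · rw [h' v hv] at hj
            have : j = 0 := by exact_mod_cast hj.symm
            omega
          · have := h'.2 v (hW.sub hv)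
            rw [hj] at this
            exact_mod_cast this
        have hjk : j ≤ k := by
          rcases Nat.eq_zero_or_pos j with h' | h'
          · omega
          · have h1 : μ v * u v ≤ u x := by
              conv_rhs => rw [h, map_sum]
              simp only [map_smul, smul_eq_mul]
              exact Finset.single_le_sum (f := fun v => μ v * u v)
                (fun w hw => mul_nonneg (hμ w hw) (S.nonneg hu (hW.sub hw))) hv
            have h2 : (0 : ℝ) < j := by exact_mod_cast h'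
            have h3 : (0 : ℝ) < k := by rw [← hk]; rw [hj] at h1; nlinarith
            have h4 : 0 < k := by exact_mod_cast h3
            omega
        exact ⟨k - j, by rw [map_sub, hk, hj, Nat.cast_sub hjk]⟩
      · rw [map_sub, S.hm v (hW.sub hv)]
        push_cast at hN
        linarith
    simpa using Λ.add_mem key (hΛ v hv)

theorem IsBlock.greedy {W : Finset E} {s : ℕ} (hW : S.IsBlock W s) (Λ : AddSubgroup E)
    (hΛ : ∀ v ∈ W, v ∈ Λ) {x : E} (hxW : x ∈ Submodule.span ℝ (W : Set E))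
    (hx : ∀ u ∈ S.U, ∃ k : ℤ, u x = k) : x ∈ Λ := by
  obtain ⟨K, hK⟩ := exists_nat_ge (∑ u ∈ S.U, |u x|)
  have h1 : K • ∑ v ∈ W, v ∈ Λ := Λ.nsmul_mem (Λ.sum_mem hΛ) K
  obtain ⟨N, hN⟩ := exists_nat_ge (S.m (x + K • ∑ v ∈ W, v))
  have h2 := hW.greedy_nat Λ hΛ N (x + K • ∑ v ∈ W, v) (Submodule.add_mem _ hxW
    (Submodule.smul_of_tower_mem _ _ (Submodule.sum_mem _ fun v hv => Submodule.subset_span hv)))
    (fun u hu => ?_) hN
  · simpa using Λ.sub_mem h2 h1
  obtain ⟨z, hz⟩ := hx u hu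
  choose! j hj using S.hint u hu
  have h3 : u (∑ v ∈ W, v) = (∑ v ∈ W, j v : ℕ) := by
    rw [map_sum, Nat.cast_sum]
    exact Finset.sum_congr rfl fun v hv => hj v (hW.sub hv)
  have h4 : 0 ≤ z + K * (∑ v ∈ W, j v : ℕ) := by
    rcases Nat.eq_zero_or_pos (∑ v ∈ W, j v) with h | h
    · have h5 : u x = 0 := (Submodule.span_le.mpr fun v hv => by
        have := Finset.sum_eq_zero_iff.mp h v hv
        show u v = 0
        rw [hj v (hW.sub hv), this, Nat.cast_zero] : _ ≤ LinearMap.ker u) hxW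
      have h6 : z = 0 := by rw [h5] at hz; exact_mod_cast hz.symm
      rw [h6]; positivity
    · have h5 := Finset.single_le_sum (f := fun u : Dual ℝ E => |u x|) (fun _ _ => abs_nonneg _) hu
      have h6 : -(z : ℝ) ≤ K := by rw [← hz]; linarith [neg_abs_le (u x)]
      have h7 : -z ≤ K := by exact_mod_cast h6
      have h8 : (1 : ℤ) ≤ (∑ v ∈ W, j v : ℕ) := by exact_mod_cast h
      nlinarith
  refine ⟨(z + K * (∑ v ∈ W, j v : ℕ)).toNat, ?_⟩
  rw [map_add, map_nsmul, hz, h3, nsmul_eq_mul, ← Int.cast_natCast (R := ℝ) (Int.toNat _),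
    Int.toNat_of_nonneg h4]
  push_cast
  rfl

theorem IsBlock.comp_proj {W : Finset E} {s : ℕ} (hW : S.IsBlock W s) {π : E →ₗ[ℝ] E}
    (h1 : ∀ v ∈ W, π v = v) (h2 : ∀ v ∈ S.V, v ∉ W → π v = 0) {u : Dual ℝ E} (hu : u ∈ S.U) :
    (∀ x, u (π x) = 0) ∨ ∀ x, u (π x) = u x := by
  rcases hW.cut u hu with h | h
  · refine Or.inl fun x => LinearMap.congr_fun (S.ext_V (f := u ∘ₗ π) (g := 0) fun v hv => ?_) x
    by_cases hv' : v ∈ W
    · simp [h1 v hv', h v hv']
    · simp [h2 v hv hv']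
  · refine Or.inr fun x => LinearMap.congr_fun (S.ext_V (f := u ∘ₗ π) (g := u) fun v hv => ?_) x
    by_cases hv' : v ∈ W
    · simp [h1 v hv']
    · simp [h2 v hv hv', h.1 v hv hv']

theorem IsBlock.nonempty {W : Finset E} {s : ℕ} (hW : S.IsBlock W s) : W.Nonempty := by
  rw [Finset.nonempty_iff_ne_empty]
  rintro rfl
  have := hW.dim
  rw [Finset.coe_empty, Submodule.span_empty, finrank_bot] at this
  omega

theorem IsBlock.center {W : Finset E} {s : ℕ} (hW : S.IsBlock W s) {u : Dual ℝ E} (hu : u ∈ S.U) :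
    ((∀ v ∈ W, u v = 0) ∧ u (∑ v ∈ W, S.lam v • v) = 0) ∨
      ((∀ v ∈ S.V, u v ≤ 1) ∧ u (∑ v ∈ W, S.lam v • v) = 1) := by
  classical
  have e : u (∑ v ∈ W, S.lam v • v) = ∑ v ∈ W, S.lam v * u v := by
    rw [map_sum]; simp only [map_smul, smul_eq_mul]
  rw [e]
  rcases hW.cut u hu with h | h
  · exact Or.inl ⟨h, Finset.sum_eq_zero fun v hv => by rw [h v hv, mul_zero]⟩
  · refine Or.inr ⟨h.2, ?_⟩
    rw [← S.hU1 u hu, ← Finset.sum_sdiff hW.sub, Finset.sum_eq_zero (s := S.V \ W) fun v hv => by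
      rw [h.1 v (Finset.mem_sdiff.mp hv).1 (Finset.mem_sdiff.mp hv).2, mul_zero], zero_add]

end Set0

end Pool.Agent.P.MP_92a118_co.J
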