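import Mathlib
import Pool.Agent.P.MP_92a118_co.Main
import Pool.Agent.P.MP_92a118_co.J.A4

/-! From a lattice polytope of real index to the combinatorial core (after `Bridge2`). -/

namespace Pool.Agent.P.MP_92a118_co.J

open Module Finset

theorem exists_set0 {d : ℕ} {r : ℝ} (hd : 0 < d) (S : Finset (Fin d → ℝ))
    (hS : ∀ x ∈ S, IsLatticePoint x) (hrpos : 0 < r) (m0 : Fin d → ℝ)
    (hint : 0 ∈ interior ((fun x => r • x - m0) '' convexHull ℝ (S : Set (Fin d → ℝ))))
    (hT0 : IsLatticePolytope {y : Fin d → ℝ |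
      ∀ x ∈ (fun x => r • x - m0) '' convexHull ℝ (S : Set (Fin d → ℝ)), -1 ≤ x ⬝ᵥ y}) :
    ∃ Z : Set0 (ℝ × (Fin d → ℝ)), (∀ v, v ∈ Z.V ↔ ∃ x ∈ S, v = (1, x)) ∧
      ∑ v ∈ Z.V, Z.lam v = r ∧ (∀ u ∈ Z.U, ∀ p, IsLat p → ∃ z : ℤ, u p = z) ∧
      (∀ p, Z.m p = p.1) ∧ ∑ v ∈ Z.V, Z.lam v • v.2 = m0 := by
  classical
  obtain ⟨T, hT, hD⟩ := hT0
  obtain ⟨lam, hlam, hlam1, hlam2⟩ := exists_pos_weights S r hrpos m0 hint
  let G : Finset (Fin d → ℝ) := S.image (fun x => r • x - m0)
  have hDG : {y : Fin d → ℝ | ∀ g ∈ G, -1 ≤ g ⬝ᵥ y} = convexHull ℝ (T : Set (Fin d → ℝ)) := by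
    rw [← hD]
    ext y
    simp only [Set.mem_ofPred_eq]
    constructor
    · rintro h _ ⟨p, hp, rfl⟩
      obtain ⟨c, hc0, hc1, rfl⟩ := Finset.mem_convexHull'.mp hp
      have e1 : (r • ∑ x ∈ S, c x • x - m0) ⬝ᵥ y
          = ∑ x ∈ S, c x * ((r • x - m0) ⬝ᵥ y) := by
        simp only [sub_dotProduct, smul_dotProduct, sum_dotProduct, smul_eq_mul, mul_sub,
          Finset.sum_sub_distrib, ← Finset.sum_mul, hc1, one_mul, Finset.mul_sum]
        congr 1
        exact Finset.sum_congr rfl (fun x _ => by ring)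
      simp only []
      rw [e1]
      calc (-1 : ℝ) = ∑ x ∈ S, c x * (-1) := by rw [← Finset.sum_mul, hc1, one_mul]
        _ ≤ _ := Finset.sum_le_sum (fun x hx => mul_le_mul_of_nonneg_left
          (h _ (Finset.mem_image_of_mem _ hx)) (hc0 x hx))
    · intro h g hg
      obtain ⟨x, hx, rfl⟩ := Finset.mem_image.mp hg
      exact h _ ⟨x, subset_convexHull ℝ _ hx, rfl⟩
  let T' : Finset (Fin d → ℝ) := T.filter (fun y => ∃ g ∈ G, g ⬝ᵥ y = -1)
  have hTT' := dual_eq_tight hd G T hDG T' (fun y hy h => Finset.mem_filter.mpr ⟨hy, h⟩)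
  let al : (Fin d → ℝ) → ℝ := fun y => (1 - m0 ⬝ᵥ y) / r
  have hal : ∀ y, r * al y = 1 - m0 ⬝ᵥ y := fun y => by
    simp only [al]; field_simp
  have halint : ∀ y ∈ T', ∃ z : ℤ, al y = z := by
    intro y hy
    obtain ⟨hyT, g, hg, h1⟩ := Finset.mem_filter.mp hy
    obtain ⟨x, hx, rfl⟩ := Finset.mem_image.mp hg
    obtain ⟨z, hz⟩ := (hS x hx).dot (hT y hyT)
    refine ⟨-z, ?_⟩
    simp only [sub_dotProduct, smul_dotProduct, smul_eq_mul, hz] at h1
    have h2 := hal y
    have h3 : r * al y = r * (-z : ℤ) := by push_cast; linarith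
    exact mul_left_cancel₀ hrpos.ne' h3
  have hnn : ∀ y ∈ T', ∀ x ∈ S, 0 ≤ al y + x ⬝ᵥ y := by
    intro y hy x hx
    have h1 : y ∈ {y : Fin d → ℝ | ∀ g ∈ G, -1 ≤ g ⬝ᵥ y} := by
      rw [hDG]; exact subset_convexHull ℝ _ (Finset.mem_filter.mp hy).1
    have h2 := h1 _ (Finset.mem_image_of_mem _ hx)
    simp only [sub_dotProduct, smul_dotProduct, smul_eq_mul] at h2
    have h3 := hal y
    have h4 : 0 ≤ r * (al y + x ⬝ᵥ y) := by linarith
    by_contra hc
    push Not at hc
    nlinarith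
  have hinjV : Set.InjOn (fun x : Fin d → ℝ => ((1 : ℝ), x)) S :=
    fun x _ x' _ h => (Prod.ext_iff.mp h).2
  let lin : Dual ℝ (ℝ × (Fin d → ℝ)) → (Fin d → ℝ) := fun u i => u (0, Pi.single i 1)
  have hlin : ∀ a y, lin (uf a y) = y := by
    intro a y; ext i; simp [lin, uf_apply]
  have hinjU : Set.InjOn (fun y : Fin d → ℝ => uf (al y) y) T' := by
    intro y _ y' _ h
    have := congrArg lin h
    rwa [hlin, hlin] at this
  have hsumV : ∀ a y, ∑ x ∈ S, lam x * (a + x ⬝ᵥ y) = r * a + m0 ⬝ᵥ y := by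
    intro a y
    rw [← hlam2, ← hlam1]
    simp only [mul_add, Finset.sum_add_distrib, sum_dotProduct, smul_dotProduct, smul_eq_mul,
      Finset.sum_mul]
  refine ⟨{ V := S.image (fun x => ((1 : ℝ), x))
            U := T'.image (fun y => uf (al y) y)
            m := LinearMap.fst ℝ ℝ (Fin d → ℝ)
            lam := fun p => lam p.2
            hint := ?_, hm := ?_, hlam := ?_, hU1 := ?_, hdual := ?_ }, ?_, ?_, ?_,
    fun _ => rfl, ?_⟩
  · intro u hu v hv
    obtain ⟨y, hy, rfl⟩ := Finset.mem_image.mp hu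
    obtain ⟨x, hx, rfl⟩ := Finset.mem_image.mp hv
    obtain ⟨z, hz⟩ := halint y hy
    obtain ⟨z', hz'⟩ := (hS x hx).dot (hT y (Finset.mem_filter.mp hy).1)
    have h1 := hnn y hy x hx
    rw [hz, hz'] at h1
    have h2 : 0 ≤ z + z' := by exact_mod_cast h1
    refine ⟨(z + z').toNat, ?_⟩
    rw [uf_apply, hz, hz']
    have h3 : (((z + z').toNat : ℤ) : ℝ) = ((z + z' : ℤ) : ℝ) := by rw [Int.toNat_of_nonneg h2]
    push_cast at h3 ⊢
    linarith
  · intro v hv
    obtain ⟨x, hx, rfl⟩ := Finset.mem_image.mp hv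
    rfl
  · intro v hv
    obtain ⟨x, hx, rfl⟩ := Finset.mem_image.mp hv
    exact hlam x hx
  · intro u hu
    obtain ⟨y, hy, rfl⟩ := Finset.mem_image.mp hu
    rw [Finset.sum_image hinjV]
    simp only [uf_apply, mul_one]
    rw [hsumV, hal]; ring
  · intro φ hφ
    obtain ⟨a, η, rfl⟩ := exists_uf φ
    have hφ' : ∀ x ∈ S, 0 ≤ a + x ⬝ᵥ η := by
      intro x hx
      simpa [uf_apply] using hφ _ (Finset.mem_image_of_mem _ hx)
    set φ0 := r * a + m0 ⬝ᵥ η with hφ0
    have h0 : 0 ≤ φ0 := by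
      rw [hφ0, ← hsumV]
      exact Finset.sum_nonneg (fun x hx => mul_nonneg (hlam x hx).le (hφ' x hx))
    rcases h0.eq_or_lt with h0 | h0
    · have hη : η = 0 := by
        obtain ⟨ε, hε, p, hp, hpe⟩ := exists_small_smul_mem hint (-η)
        obtain ⟨c, hc0, hc1, rfl⟩ := Finset.mem_convexHull'.mp hp
        have e1 : 0 ≤ a + (∑ x ∈ S, c x • x) ⬝ᵥ η := by
          have : a + (∑ x ∈ S, c x • x) ⬝ᵥ η = ∑ x ∈ S, c x * (a + x ⬝ᵥ η) := by
            simp only [mul_add, Finset.sum_add_distrib, sum_dotProduct, smul_dotProduct,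
              smul_eq_mul, ← Finset.sum_mul, hc1, one_mul]
          rw [this]
          exact Finset.sum_nonneg (fun x hx => mul_nonneg (hc0 x hx) (hφ' x hx))
        have e2 := congrArg (fun w => w ⬝ᵥ η) hpe
        simp only [sub_dotProduct, smul_dotProduct, smul_eq_mul, neg_dotProduct] at e2
        have e3 : 0 ≤ η ⬝ᵥ η := Finset.sum_nonneg (fun i _ => mul_self_nonneg _)
        have e4 : η ⬝ᵥ η = 0 := by
          apply le_antisymm _ e3
          by_contra hc
          push Not at hc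
          nlinarith
        exact dotProduct_self_eq_zero.mp e4
      have ha : a = 0 := by
        rw [hφ0, hη, dotProduct_zero, add_zero] at h0
        rcases mul_eq_zero.mp h0.symm with h | h
        · exact absurd h hrpos.ne'
        · exact h
      refine ⟨fun _ => 0, fun _ _ => le_rfl, ?_⟩
      apply LinearMap.ext
      intro p
      simp [uf_apply, hη, ha]
    · have hy : (φ0⁻¹ • η) ∈ {y : Fin d → ℝ | ∀ g ∈ G, -1 ≤ g ⬝ᵥ y} := by
        intro g hg
        obtain ⟨x, hx, rfl⟩ := Finset.mem_image.mp hg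
        have := hφ' x hx
        rw [dotProduct_smul, smul_eq_mul, ← div_eq_inv_mul, le_div_iff₀ h0]
        simp only [sub_dotProduct, smul_dotProduct, smul_eq_mul]
        nlinarith
      rw [hDG] at hy
      obtain ⟨c, hc0, hc1, hc⟩ := Finset.mem_convexHull'.mp (hTT' hy)
      refine ⟨fun u => φ0 * c (lin u), ?_, ?_⟩
      · intro u hu
        obtain ⟨y, hy, rfl⟩ := Finset.mem_image.mp hu
        simp only [hlin]
        exact mul_nonneg h0.le (hc0 y hy)
      · rw [Finset.sum_image hinjU]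
        apply LinearMap.ext
        intro p
        simp only [hlin, LinearMap.sum_apply, LinearMap.smul_apply, uf_apply, smul_eq_mul]
        have e1 : ∀ w : Fin d → ℝ, ∑ y ∈ T', φ0 * c y * (w ⬝ᵥ y) = w ⬝ᵥ η := by
          intro w
          have := congrArg (fun z => w ⬝ᵥ z) hc
          simp only [dotProduct_sum, dotProduct_smul, smul_eq_mul] at this
          simp only [mul_assoc, ← Finset.mul_sum, this]
          field_simp
        have e2 : ∑ y ∈ T', φ0 * c y * al y = a := by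
          apply mul_left_cancel₀ hrpos.ne'
          have : r * ∑ y ∈ T', φ0 * c y * al y
              = ∑ y ∈ T', (φ0 * c y - φ0 * c y * (m0 ⬝ᵥ y)) := by
            rw [Finset.mul_sum]
            refine Finset.sum_congr rfl (fun y _ => ?_)
            have := hal y
            calc r * (φ0 * c y * al y) = φ0 * c y * (r * al y) := by ring
              _ = _ := by rw [this]; ring
          rw [this, Finset.sum_sub_distrib, e1, ← Finset.mul_sum, hc1, hφ0]
          ring
        simp only [mul_add, Finset.sum_add_distrib, e1]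
        rw [← e2, Finset.sum_mul]
        congr 1
        exact Finset.sum_congr rfl (fun y _ => by ring)
  · intro v
    simp only [Finset.mem_image]
    constructor
    · rintro ⟨x, hx, rfl⟩; exact ⟨x, hx, rfl⟩
    · rintro ⟨x, hx, rfl⟩; exact ⟨x, hx, rfl⟩
  · rw [Finset.sum_image hinjV]; exact hlam1
  · intro u hu p hp
    obtain ⟨y, hy, rfl⟩ := Finset.mem_image.mp hu
    obtain ⟨z, hz⟩ := halint y hy
    obtain ⟨⟨z1, hz1⟩, hp2⟩ := hp
    obtain ⟨z', hz'⟩ := hp2.dot (hT y (Finset.mem_filter.mp hy).1)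
    exact ⟨z * z1 + z', by rw [uf_apply, hz, hz1, hz']; push_cast; ring⟩
  · rw [Finset.sum_image hinjV]; exact hlam2

end Pool.Agent.P.MP_92a118_co.J
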