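import Mathlib
import Pool.Agent.P.MP_92a118_co.J.B1

/-! A criterion for Gorenstein polytopes, and lattice coordinates on a rational subspace. -/

namespace Pool.Agent.P.MP_92a118_co.J

open Module Finset
open scoped Pointwise

theorem image_aff {a : ℕ} (S : Finset (Fin a → ℝ)) (r : ℝ) (m : Fin a → ℝ) :
    (fun x => r • x - m) '' convexHull ℝ (S : Set (Fin a → ℝ)) =
      convexHull ℝ ((fun x => r • x - m) '' (S : Set (Fin a → ℝ))) := by
  let g : (Fin a → ℝ) →ᵃ[ℝ] (Fin a → ℝ) :=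
    { toFun := fun x => r • x - m
      linear := r • LinearMap.id
      map_vadd' := fun p v => by simp only [vadd_eq_add, smul_add]; simp; abel }
  exact AffineMap.image_convexHull g _

theorem latticePolytope_aff {a : ℕ} (S : Finset (Fin a → ℝ)) (hS : ∀ x ∈ S, IsLatticePoint x)
    (p : ℕ) (m : Fin a → ℝ) (hm : IsLatticePoint m) :
    IsLatticePolytope ((fun x => (p : ℝ) • x - m) '' convexHull ℝ (S : Set (Fin a → ℝ))) := by
  classical
  refine ⟨S.image fun x => (p : ℝ) • x - m, fun x hx => ?_, by rw [image_aff, Finset.coe_image]⟩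
  obtain ⟨y, hy, rfl⟩ := Finset.mem_image.mp hx
  refine IsLatticePoint.sub (fun i => ?_) hm
  obtain ⟨z, hz⟩ := hS y hy i
  exact ⟨p * z, by simp [hz]⟩

theorem gorFull_of {a : ℕ} {A : Type} (U : Finset A) (ψ : A → Dual ℝ (ℝ × (Fin a → ℝ)))
    (S : Finset (Fin a → ℝ)) (hS : ∀ x ∈ S, IsLatticePoint x)
    (hψ : ∀ u ∈ U, ∀ q, IsLat q → ∃ z : ℤ, ψ u q = z) (p : ℕ) (hp : 1 ≤ p) (m : Fin a → ℝ)
    (hm : IsLatticePoint m)
    (H1 : ∀ z, z ∈ convexHull ℝ (S : Set (Fin a → ℝ)) ↔ ∀ u ∈ U, 0 ≤ ψ u (1, z))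
    (H2 : ∀ u ∈ U, ψ u (p, m) = 1)
    (H3 : ∀ φ : Dual ℝ (ℝ × (Fin a → ℝ)), (∀ z ∈ S, 0 ≤ φ (1, z)) →
      ∃ κ : A → ℝ, (∀ u ∈ U, 0 ≤ κ u) ∧ ∀ q, φ q = ∑ u ∈ U, κ u * ψ u q) :
    IsGorensteinFull (convexHull ℝ (S : Set (Fin a → ℝ))) p := by
  classical
  have hp0 : (0 : ℝ) < p := by exact_mod_cast hp
  choose c y hcy using fun u => exists_uf (ψ u)
  have hy : ∀ u i, y u i = ψ u (0, Pi.single i 1) := fun u i => by simp [hcy, uf_apply]
  set Q := (fun x => (p : ℝ) • x - m) '' convexHull ℝ (S : Set (Fin a → ℝ)) with hQ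
  have e1 : ∀ u ∈ U, ∀ z, p * ψ u (1, z) = 1 + ((p : ℝ) • z - m) ⬝ᵥ y u := by
    intro u hu z
    have := H2 u hu
    simp only [hcy, uf_apply, sub_dotProduct, smul_dotProduct, smul_eq_mul] at this ⊢
    linarith
  have memQ : ∀ w, w ∈ Q ↔ ∀ u ∈ U, -1 ≤ w ⬝ᵥ y u := by
    intro w
    constructor
    · rintro ⟨z, hz, rfl⟩ u hu
      have := mul_nonneg hp0.le ((H1 z).mp hz u hu)
      rw [e1 u hu] at this
      linarith
    · intro h
      have e : (p : ℝ) • ((p : ℝ)⁻¹ • (w + m)) - m = w := by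
        rw [smul_smul, mul_inv_cancel₀ hp0.ne', one_smul, add_sub_cancel_right]
      refine ⟨(p : ℝ)⁻¹ • (w + m), (H1 _).mpr fun u hu => ?_, e⟩
      have := e1 u hu ((p : ℝ)⁻¹ • (w + m))
      rw [e] at this
      exact le_of_mul_le_mul_left (by linarith [h u hu]) hp0
  have hopen : ∀ n : Fin a → ℝ, IsOpen {w : Fin a → ℝ | ∀ u ∈ U, -1 < (w - n) ⬝ᵥ y u} := by
    intro n
    simp only [Set.ofPred_forall]
    exact isOpen_biInter_finset fun u _ => isOpen_lt continuous_const (by fun_prop)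
  refine ⟨⟨S, hS, rfl⟩, ⟨⟨hp, m, ?_, hm⟩, ?_⟩, m, hm, latticePolytope_aff S hS p m hm, ?_,
    U.image y, ?_, ?_⟩
  · refine mem_interior.mpr ⟨_, fun w hw => ?_, hopen m, fun u _ => by simp⟩
    obtain ⟨z, hz, h⟩ := (memQ (w - m)).mpr fun u hu => (hw u hu).le
    exact ⟨z, hz, sub_left_injective h⟩
  · rintro k ⟨hk, x, hx, hx'⟩
    have hk0 : (0 : ℝ) < k := by exact_mod_cast hk
    have h1 : ∀ u ∈ U, 1 ≤ ψ u (k, x) := by
      intro u hu
      have h2 : Filter.Tendsto (fun t : ℝ => x + t • (x - (k / p : ℝ) • m)) (nhds 0) (nhds x) := by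
        have : Continuous (fun t : ℝ => x + t • (x - (k / p : ℝ) • m)) := by fun_prop
        simpa using this.tendsto 0
      obtain ⟨ε, ⟨z, hz, hzε⟩, hε⟩ := ((((h2.eventually (mem_interior_iff_mem_nhds.mp hx)).filter_mono
        (nhdsWithin_le_nhds (s := Set.Ioi 0))).and self_mem_nhdsWithin).exists :)
      have hε' : 0 < ε := hε
      have h3 := mul_nonneg hk0.le ((H1 z).mp hz u hu)
      have h4 : (k : ℝ) • ((1 : ℝ), z) = (1 + ε) • ((k : ℝ), x) - (ε * (k / p)) • ((p : ℝ), m) := by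
        refine Prod.ext ?_ ?_
        · simp only [Prod.smul_fst, Prod.fst_sub, smul_eq_mul]; field_simp; ring
        · simp only [Prod.smul_snd, Prod.snd_sub]
          simp only at hzε
          rw [hzε]; module
      rw [← smul_eq_mul, ← map_smul, h4, map_sub, map_smul, map_smul, H2 u hu] at h3
      simp only [smul_eq_mul, mul_one] at h3
      obtain ⟨j, hj⟩ := hψ u hu (k, x) ⟨⟨k, by simp⟩, hx'⟩
      have h5 : 0 < ε * (k / p) := by positivity
      have h6 : (0 : ℝ) < j := by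
        rw [hj] at h3
        by_contra hc
        nlinarith
      have h7 : 1 ≤ j := by exact_mod_cast h6
      rw [hj]; exact_mod_cast h7
    obtain ⟨κ, hκ, h⟩ := H3 (LinearMap.fst ℝ ℝ (Fin a → ℝ)) (fun z _ => by simp)
    have h2 := h (p, m)
    have h3 := h (k, x)
    simp only [LinearMap.fst_apply] at h2 h3
    have h4 : (p : ℝ) ≤ k := by
      rw [h2, h3]
      exact Finset.sum_le_sum fun u hu =>
        mul_le_mul_of_nonneg_left (by rw [H2 u hu]; exact h1 u hu) (hκ u hu)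
    exact_mod_cast h4
  · exact mem_interior.mpr ⟨_, fun w hw => (memQ w).mpr fun u hu => by simpa using (hw u hu).le,
      hopen 0, fun u _ => by simp⟩
  · intro x hx i
    obtain ⟨u, hu, rfl⟩ := Finset.mem_image.mp hx
    rw [hy]
    exact hψ u hu _ ⟨⟨0, by simp⟩, fun j => ⟨if j = i then 1 else 0, by simp [Pi.single_apply]⟩⟩
  · apply Set.Subset.antisymm
    · intro η hη
      obtain ⟨κ, hκ, h⟩ := H3 (uf ((1 - m ⬝ᵥ η) / p) η) (fun z hz => by
        have := hη _ ⟨z, subset_convexHull ℝ _ hz, rfl⟩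
        simp only [sub_dotProduct, smul_dotProduct, smul_eq_mul] at this
        rw [uf_apply, mul_one, div_add' _ _ _ hp0.ne']
        exact div_nonneg (by linarith) hp0.le)
      have h1 : ∑ u ∈ U, κ u = 1 := by
        have := h (p, m)
        rw [uf_apply, div_mul_cancel₀ _ hp0.ne', Finset.sum_congr rfl
          (fun u hu => by rw [H2 u hu, mul_one])] at this
        linarith
      have h2 : η = ∑ u ∈ U, κ u • y u := by
        ext i
        have := h (0, Pi.single i 1)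
        simp only [uf_apply, mul_zero, zero_add, single_dotProduct, one_mul, ← hy] at this
        simp [Finset.sum_apply, this]
      rw [h2]
      exact (convex_convexHull ℝ _).sum_mem hκ h1 fun u hu =>
        subset_convexHull ℝ _ (Finset.mem_coe.mpr (Finset.mem_image_of_mem _ hu))
    · refine convexHull_min (fun x hx => ?_) ?_
      · obtain ⟨u, hu, rfl⟩ := Finset.mem_image.mp hx
        exact fun w hw => (memQ w).mp hw u hu
      · intro x hx x' hx' s t hs ht hst w hw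
        have h1 := mul_le_mul_of_nonneg_left (hx w hw) hs
        have h2 := mul_le_mul_of_nonneg_left (hx' w hw) ht
        simp only [dotProduct_add, dotProduct_smul, smul_eq_mul]
        linarith

theorem latticeIso_of_image {ι κ : Type} (P : Set (ι → ℝ)) (g : (ι → ℝ) →ᵃ[ℝ] (κ → ℝ))
    (f : (κ → ℝ) →ᵃ[ℝ] (ι → ℝ)) (hfg : ∀ x, f (g x) = x)
    (hlat : ∀ x, IsLatticePoint (g x) ↔ IsLatticePoint x) : LatticeIso (g '' P) P := by
  have hc : ∀ X : Set (ι → ℝ), f '' (g '' X) = X := fun X => by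
    rw [Set.image_image]; simp [hfg]
  refine ⟨f, ?_, hc P, ?_⟩
  · rw [← AffineSubspace.map_span]
    rintro _ ⟨x, -, rfl⟩ _ ⟨x', -, rfl⟩ h
    rw [hfg, hfg] at h
    rw [h]
  · rw [← AffineSubspace.map_span]
    ext y
    simp only [Set.mem_image, Set.mem_ofPred_eq, AffineSubspace.mem_map]
    constructor
    · rintro ⟨_, ⟨⟨x, hx, rfl⟩, hx'⟩, rfl⟩
      rw [hfg]
      exact ⟨hx, (hlat x).mp hx'⟩
    · rintro ⟨h1, h2⟩
      exact ⟨g y, ⟨⟨y, h1, rfl⟩, (hlat y).mpr h2⟩, hfg y⟩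

theorem exists_coords {d : ℕ} (X : Set (Fin d → ℝ)) (hX : ∀ x ∈ X, IsLatticePoint x) :
    ∃ (a : ℕ) (B : (Fin a → ℝ) →ₗ[ℝ] (Fin d → ℝ)), Function.Injective B ∧
      LinearMap.range B = Submodule.span ℝ X ∧
      ∀ z, IsLatticePoint (B z) ↔ IsLatticePoint z := by
  classical
  let ι : (Fin d → ℤ) →ₗ[ℤ] (Fin d → ℝ) :=
    { toFun := fun w i => w i
      map_add' := fun w w' => by ext i; simp
      map_smul' := fun c w => by ext i; simp }
  obtain ⟨a, b⟩ := Submodule.basisOfPid (Pi.basisFun ℤ (Fin d))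
    (((Submodule.span ℝ X).restrictScalars ℤ).comap ι)
  have hind : LinearIndependent ℝ fun i => ι (b i) :=
    (linearIndependent_algebraMap_comp_iff (R := ℤ) (S := ℝ)
      (v := fun i => (b i : Fin d → ℤ))).mpr
      (b.linearIndependent.map' (Submodule.subtype _) (Submodule.ker_subtype _))
  let B := Fintype.linearCombination ℝ fun i => ι (b i)
  have hB : ∀ z, B z = ∑ i, z i • ι (b i) := fun z => Fintype.linearCombination_apply ..
  have hinj : Function.Injective B := hind.fintypeLinearCombination_injective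
  have key : ∀ x ∈ Submodule.span ℝ X, IsLatticePoint x →
      ∃ n : Fin a → ℤ, x = B fun i => n i := by
    intro x hx hx'
    choose w hw using hx'
    have h1 : x = ι w := funext hw
    refine ⟨b.repr ⟨w, by simpa [← h1] using hx⟩, ?_⟩
    have h2 := congrArg ι (congrArg Subtype.val (b.sum_repr ⟨w, by simpa [← h1] using hx⟩))
    simp only [Submodule.coe_sum, Submodule.coe_smul, map_sum, map_smul] at h2
    rw [hB]
    simp only [Int.cast_smul_eq_zsmul]
    exact h1.trans h2.symm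
  have hr : LinearMap.range B = Submodule.span ℝ X := by
    apply le_antisymm
    · rintro _ ⟨z, rfl⟩
      rw [hB]
      exact Submodule.sum_mem _ fun i _ => Submodule.smul_mem _ _ (b i).2
    · refine Submodule.span_le.mpr fun x hx => ?_
      obtain ⟨n, hn⟩ := key x (Submodule.subset_span hx) (hX x hx)
      exact ⟨_, hn.symm⟩
  refine ⟨a, B, hinj, hr, fun z => ⟨fun h => ?_, fun h j => ?_⟩⟩
  · obtain ⟨n, hn⟩ := key _ (hr ▸ LinearMap.mem_range_self B z) h
    rw [hinj hn]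
    exact fun i => ⟨n i, rfl⟩
  · choose n hn using h
    exact ⟨∑ i, n i * (b i : Fin d → ℤ) j, by simp [hB, Finset.sum_apply, hn, ι]⟩

end Pool.Agent.P.MP_92a118_co.J
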