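import Mathlib
import Pool.Agent.P.MP_92a118_co.Defs

/-! Free joins, compressed polytopes, and lattice polytopes of real index. -/

namespace Pool.Agent.P.MP_92a118_co

/-- The free join of the sets `Q k`: each is placed in its own copy of the ambient space, at the
height `e_k`, and the convex hull is taken. -/
def freeJoin {ι κ : Type} [DecidableEq κ] (Q : κ → Set (ι → ℝ)) : Set ((κ × ι) ⊕ κ → ℝ) :=
  cayley fun k => (fun (x : ι → ℝ) (p : κ × ι) => if p.1 = k then x p.2 else 0) '' Q k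

/-- `Q` is cut out of its affine hull by finitely many conditions `0 ≤ c + a · x ≤ 1` with
integral `c` and `a`. -/
def IsCompressed {n : ℕ} (Q : Set (Fin n → ℝ)) : Prop :=
  ∃ T : Finset (ℤ × (Fin n → ℤ)), Q = {x | x ∈ affineSpan ℝ Q ∧
    ∀ p ∈ T, (p.1 : ℝ) + ∑ i, (p.2 i : ℝ) * x i ∈ Set.Icc (0 : ℝ) 1}

/-- `P ⊆ ℝ^d` is a lattice polytope, and for some point `m ∈ ℝ^d` the set `rP - m` has `0` in its
interior and its dual is a lattice polytope. -/
def HasIndex {d : ℕ} (P : Set (Fin d → ℝ)) (r : ℝ) : Prop :=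
  IsLatticePolytope P ∧ ∃ m : Fin d → ℝ, 0 ∈ interior ((fun x => r • x - m) '' P) ∧
    IsLatticePolytope {y : Fin d → ℝ | ∀ x ∈ (fun x => r • x - m) '' P, -1 ≤ x ⬝ᵥ y}

end Pool.Agent.P.MP_92a118_co
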