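import Mathlib
import Pool.Agent.P.MP_92a118_co.J.B2
import Pool.Agent.P.MP_92a118_co.J.Defs2

/-! A block is a compressed Gorenstein polytope of dimension `2s` and codegree `s + 1`. -/

namespace Pool.Agent.P.MP_92a118_co.J

open Module Finset

variable {d : ℕ}

/-- The embedding at height one. -/
def up (d : ℕ) : (Fin d → ℝ) →ᵃ[ℝ] ℝ × (Fin d → ℝ) where
  toFun x := (1, x)
  linear := LinearMap.inr ℝ ℝ (Fin d → ℝ)
  map_vadd' p v := by simp

/-- The lattice of the homogenised space. -/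
def latG (d : ℕ) : AddSubgroup (ℝ × (Fin d → ℝ)) where
  carrier := {p | IsLat p}
  add_mem' := IsLat.add
  zero_mem' := ⟨⟨0, by simp⟩, fun i => ⟨0, by simp⟩⟩
  neg_mem' := fun {p} hp => by simpa using hp.smul (-1)

/-- The core attached to a lattice polytope. -/
structure Good (Z : Set0 (ℝ × (Fin d → ℝ))) : Prop where
  one : ∀ v ∈ Z.V, v.1 = 1
  lat : ∀ v ∈ Z.V, IsLatticePoint v.2
  int : ∀ u ∈ Z.U, ∀ p, IsLat p → ∃ z : ℤ, u p = z

open Classical in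
/-- The points under a set of generators. -/
noncomputable def dn (W : Finset (ℝ × (Fin d → ℝ))) : Finset (Fin d → ℝ) := W.image Prod.snd

theorem isLat_single (i : Fin d) : IsLat ((0 : ℝ), (Pi.single i 1 : Fin d → ℝ)) :=
  ⟨⟨0, by simp⟩, fun j => ⟨if j = i then 1 else 0, by simp [Pi.single_apply]⟩⟩

namespace Good

variable {Z : Set0 (ℝ × (Fin d → ℝ))} (hZ : Good Z) {W : Finset (ℝ × (Fin d → ℝ))} {s : ℕ}

include hZ

theorem isLat {v : ℝ × (Fin d → ℝ)} (hv : v ∈ Z.V) : IsLat v :=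
  ⟨⟨1, by simp [hZ.one v hv]⟩, hZ.lat v hv⟩

theorem mem_dn (hW : W ⊆ Z.V) {x : Fin d → ℝ} : x ∈ dn W ↔ ((1 : ℝ), x) ∈ W := by
  unfold dn
  simp only [Finset.mem_image]
  constructor
  · rintro ⟨v, hv, rfl⟩
    rwa [← hZ.one v (hW hv)]
  · exact fun h => ⟨_, h, rfl⟩

theorem dn_lat (hW : W ⊆ Z.V) : ∀ x ∈ dn W, IsLatticePoint x := fun x hx =>
  hZ.lat (1, x) (hW ((hZ.mem_dn hW).mp hx))

theorem proj_lat (hW : Z.IsBlock W s) {π : (ℝ × (Fin d → ℝ)) →ₗ[ℝ] (ℝ × (Fin d → ℝ))}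
    (h1 : ∀ v ∈ W, π v = v) (h2 : ∀ v ∈ Z.V, v ∉ W → π v = 0)
    (h3 : ∀ x, π x ∈ Submodule.span ℝ (W : Set (ℝ × (Fin d → ℝ)))) {x : ℝ × (Fin d → ℝ)}
    (hx : ∀ u ∈ Z.U, ∃ k : ℤ, u x = k) : IsLat (π x) :=
  hW.greedy (latG d) (fun v hv => hZ.isLat (hW.sub hv)) (h3 x) fun u hu => by
    rcases hW.comp_proj h1 h2 hu with h | h
    · exact ⟨0, by simp [h]⟩
    · rw [h]; exact hx u hu

theorem up_mem (hW : W ⊆ Z.V) {C : Set (ℝ × (Fin d → ℝ))} (hC : Convex ℝ C) (h : ∀ v ∈ W, v ∈ C)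
    {x : Fin d → ℝ} (hx : x ∈ convexHull ℝ (dn W : Set (Fin d → ℝ))) : ((1 : ℝ), x) ∈ C :=
  convexHull_min (t := up d ⁻¹' C) (fun y hy => h (1, y) ((hZ.mem_dn hW).mp hy))
    (hC.affine_preimage (up d)) hx

theorem mem_hull (hW : Z.IsBlock W s) {x : Fin d → ℝ}
    (hx : ((1 : ℝ), x) ∈ Submodule.span ℝ (W : Set (ℝ × (Fin d → ℝ))))
    (h : ∀ u ∈ Z.U, (∀ v ∈ W, u v = 0) ∨ 0 ≤ u (1, x)) :
    x ∈ convexHull ℝ (dn W : Set (Fin d → ℝ)) := by
  obtain ⟨μ, hμ, e⟩ := hW.primal hx fun u hu => (h u hu).elim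
    (fun h' => ((Submodule.span_le.mpr h' : _ ≤ LinearMap.ker u) hx).ge) id
  have e1 : ∑ v ∈ W, μ v = 1 := by
    have := congrArg Prod.fst e
    simp only [Prod.fst_sum, Prod.smul_fst, smul_eq_mul] at this
    rw [this]
    exact Finset.sum_congr rfl fun v hv => by rw [hZ.one v (hW.sub hv), mul_one]
  have e2 : x = ∑ v ∈ W, μ v • v.2 := by simpa [Prod.snd_sum] using congrArg Prod.snd e
  rw [e2]
  refine (convex_convexHull ℝ _).sum_mem hμ e1 fun v hv => subset_convexHull ℝ _ ?_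
  exact (hZ.mem_dn hW.sub).mpr (by rwa [← hZ.one v (hW.sub hv)])

theorem compressed (hW : Z.IsBlock W s) :
    IsCompressed (convexHull ℝ (dn W : Set (Fin d → ℝ))) := by
  classical
  choose! c hc using fun u hu => hZ.int u hu (1, 0) ⟨⟨1, by simp⟩, fun i => ⟨0, by simp⟩⟩
  choose! y hy using fun i u hu => hZ.int u hu _ (isLat_single i)
  have e : ∀ u ∈ Z.U, ∀ x, u (1, x) = c u + ∑ i, (y i u : ℝ) * x i := by
    intro u hu x
    obtain ⟨a, η, rfl⟩ := exists_uf u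
    simp only [← hc _ hu, ← hy _ _ hu, uf_apply]
    simp [dotProduct, mul_comm, Pi.single_apply]
  refine ⟨(Z.U.filter fun u => ∀ v ∈ Z.V, u v ≤ 1).image fun u => (c u, fun i => y i u), ?_⟩
  ext x
  simp only [Set.mem_ofPred_eq, Finset.forall_mem_image, Finset.mem_filter]
  constructor
  · refine fun hx => ⟨subset_affineSpan ℝ _ hx, fun u hu => ?_⟩
    rw [← e u hu.1]
    exact hZ.up_mem hW.sub ((convex_Icc (0 : ℝ) 1).linear_preimage u)
      (fun v hv => ⟨Z.nonneg hu.1 (hW.sub hv), hu.2 v (hW.sub hv)⟩) hx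
  · rintro ⟨h1, h2⟩
    rw [affineSpan_convexHull] at h1
    refine hZ.mem_hull hW ?_ fun u hu => (hW.cut u hu).imp id fun h => ?_
    · exact (affineSpan_le (Q := ((Submodule.span ℝ
        (W : Set (ℝ × (Fin d → ℝ)))).toAffineSubspace).comap (up d))).mpr
        (fun y hy => Submodule.subset_span ((hZ.mem_dn hW.sub).mp hy)) h1
    · rw [e u hu]; exact (h2 ⟨hu, h.2⟩).1

theorem gorenstein (hW : Z.IsBlock W s) :
    IsGorenstein (convexHull ℝ (dn W : Set (Fin d → ℝ))) (2 * s) (s + 1) := by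
  classical
  obtain ⟨⟨t0, x0⟩, hx0⟩ := hW.nonempty
  obtain rfl : t0 = 1 := hZ.one _ (hW.sub hx0)
  have hx0l : IsLatticePoint x0 := hZ.lat _ (hW.sub hx0)
  obtain ⟨a, B, hB1, hB2, hB3⟩ := exists_coords ((fun x => x - x0) '' (dn W : Set (Fin d → ℝ)))
    (by rintro _ ⟨x, hx, rfl⟩; exact (hZ.dn_lat hW.sub x hx).sub hx0l)
  let G : (ℝ × (Fin a → ℝ)) →ₗ[ℝ] (ℝ × (Fin d → ℝ)) :=
    (LinearMap.toSpanSingleton ℝ _ ((1 : ℝ), x0)).coprod (LinearMap.inr ℝ ℝ _ ∘ₗ B)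
  have hG : ∀ t z, G (t, z) = (t, t • x0 + B z) := fun t z => by simp [G]
  have hGi : LinearMap.ker G = ⊥ := by
    rw [LinearMap.ker_eq_bot']
    rintro ⟨t, z⟩ h
    rw [hG, Prod.mk_eq_zero] at h
    obtain ⟨rfl, h⟩ := h
    rw [zero_smul, zero_add, ← map_zero B] at h
    rw [hB1 h]; rfl
  have hsur : ∀ v ∈ W, ∃ z, G (1, z) = v := by
    intro v hv
    obtain ⟨z, hz⟩ : v.2 - x0 ∈ LinearMap.range B := hB2 ▸ Submodule.subset_span
      ⟨v.2, (hZ.mem_dn hW.sub).mpr (by rwa [← hZ.one v (hW.sub hv)]), rfl⟩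
    exact ⟨z, by rw [hG, hz, one_smul, add_sub_cancel, ← hZ.one v (hW.sub hv)]⟩
  have hGr : LinearMap.range G = Submodule.span ℝ (W : Set (ℝ × (Fin d → ℝ))) := by
    apply le_antisymm
    · rintro _ ⟨⟨t, z⟩, rfl⟩
      refine Submodule.add_mem _ (Submodule.smul_mem _ t (Submodule.subset_span hx0)) ?_
      have : Submodule.span ℝ ((fun x => x - x0) '' (dn W : Set (Fin d → ℝ))) ≤
          (Submodule.span ℝ (W : Set (ℝ × (Fin d → ℝ)))).comap (LinearMap.inr ℝ ℝ _) := by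
        refine Submodule.span_le.mpr ?_
        rintro _ ⟨x, hx, rfl⟩
        simpa using Submodule.sub_mem _ (Submodule.subset_span (R := ℝ)
          (Finset.mem_coe.mpr ((hZ.mem_dn hW.sub).mp hx))) (Submodule.subset_span hx0)
      exact this (hB2 ▸ LinearMap.mem_range_self B z)
    · exact Submodule.span_le.mpr fun v hv => (hsur v hv).elim fun z hz => ⟨_, hz⟩
  obtain rfl : a = 2 * s := by
    have h1 := LinearMap.finrank_range_of_inj (LinearMap.ker_eq_bot.mp hGi)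
    rw [hGr, hW.dim] at h1
    simp at h1
    omega
  obtain ⟨H, hH⟩ := G.exists_leftInverse_of_injective hGi
  have hH' : ∀ q, H (G q) = q := fun q => LinearMap.congr_fun hH q
  let g : (Fin (2 * s) → ℝ) →ᵃ[ℝ] (Fin d → ℝ) :=
    (LinearMap.snd ℝ _ _ ∘ₗ G).toAffineMap.comp (up _)
  let f : (Fin d → ℝ) →ᵃ[ℝ] (Fin (2 * s) → ℝ) :=
    (LinearMap.snd ℝ _ _ ∘ₗ H).toAffineMap.comp (up _)
  have hg : ∀ z, G (1, z) = (1, g z) := fun z => Prod.ext (by rw [hG]) rfl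
  have hfg : ∀ z, f (g z) = z := fun z => by
    show (H (1, g z)).2 = z
    rw [← hg, hH']
  let S' : Finset (Fin (2 * s) → ℝ) := (dn W).image f
  have hS' : ∀ z, z ∈ S' ↔ G (1, z) ∈ W := by
    intro z
    simp only [S', Finset.mem_image, hZ.mem_dn hW.sub]
    constructor
    · rintro ⟨x, hx, rfl⟩
      obtain ⟨z, hz⟩ := hsur _ hx
      rw [hg] at hz
      obtain rfl : g z = x := (Prod.ext_iff.mp hz).2
      rwa [hfg, hg]
    · exact fun h => ⟨g z, hg z ▸ h, hfg z⟩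
  have him : convexHull ℝ (dn W : Set (Fin d → ℝ)) =
      g '' convexHull ℝ (S' : Set (Fin (2 * s) → ℝ)) := by
    rw [AffineMap.image_convexHull]
    congr 1
    ext x
    simp only [Set.mem_image, Finset.mem_coe, hS', hZ.mem_dn hW.sub, hg]
    constructor
    · intro hx
      obtain ⟨z, hz⟩ := hsur _ hx
      rw [hg] at hz
      exact ⟨z, hz ▸ hx, (Prod.ext_iff.mp hz).2⟩
    · rintro ⟨z, hz, rfl⟩; exact hz
  have hGl : ∀ q, IsLat (G q) ↔ IsLat q := by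
    rintro ⟨t, z⟩
    rw [hG]
    refine and_congr_right fun ⟨k, hk⟩ => ?_
    have h1 : IsLatticePoint (t • x0) := by
      have := (hZ.isLat (hW.sub hx0)).smul k
      rw [← show t = k from hk] at this
      exact this.2
    rw [← hB3]
    exact ⟨fun h => by simpa using IsLatticePoint.sub h h1, fun h => h1.add h⟩
  have hgl : ∀ z, IsLatticePoint (g z) ↔ IsLatticePoint z := fun z =>
    ⟨fun h => ((hGl (1, z)).mp (hg z ▸ ⟨⟨1, by simp⟩, h⟩)).2,
      fun h => (hg z ▸ (hGl (1, z)).mpr ⟨⟨1, by simp⟩, h⟩ : IsLat (1, g z)).2⟩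
  have hc0 : ∑ v ∈ W, Z.lam v • v ∈ Submodule.span ℝ (W : Set (ℝ × (Fin d → ℝ))) :=
    Submodule.sum_mem _ fun v hv => Submodule.smul_mem _ _ (Submodule.subset_span hv)
  obtain ⟨⟨t, m⟩, hm⟩ := hGr.ge hc0
  obtain rfl : t = (s + 1 : ℕ) := by
    have := congrArg Prod.fst hm
    simp only [hG, Prod.fst_sum, Prod.smul_fst, smul_eq_mul] at this
    rw [this, Nat.cast_succ, ← hW.wt]
    exact Finset.sum_congr rfl fun v hv => by rw [hZ.one v (hW.sub hv), mul_one]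
  have hml : IsLat (G ((s + 1 : ℕ), m)) := hm ▸ hW.greedy (latG d)
    (fun v hv => hZ.isLat (hW.sub hv)) hc0 fun u hu => (hW.center hu).elim
      (fun h => ⟨0, by rw [h.2]; simp⟩) fun h => ⟨1, by rw [h.2]; simp⟩
  refine ⟨⟨_, hZ.dn_lat hW.sub, rfl⟩, _, him ▸ latticeIso_of_image _ g f hfg hgl,
    gorFull_of (Z.U.filter fun u => u (∑ v ∈ W, Z.lam v • v) = 1) (fun u => u ∘ₗ G) S'
      (fun z hz => ((hGl _).mp (hZ.isLat (hW.sub ((hS' z).mp hz)))).2)
      (fun u hu q hq => hZ.int u (Finset.mem_filter.mp hu).1 _ ((hGl q).mpr hq)) (s + 1)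
      (by omega) m ((hGl _).mp hml).2 (fun z => ⟨fun hz u hu => ?_, fun h => ?_⟩)
      (fun u hu => by rw [LinearMap.comp_apply, hm]; exact (Finset.mem_filter.mp hu).2)
      fun φ hφ => ?_⟩
  · rw [LinearMap.comp_apply, hg]
    exact hZ.up_mem hW.sub ((convex_Ici (0 : ℝ)).linear_preimage u)
      (fun v hv => Z.nonneg (Finset.mem_filter.mp hu).1 (hW.sub hv)) (him ▸ ⟨z, hz, rfl⟩)
  · have := hZ.mem_hull hW (x := g z) (hg z ▸ hGr.le ⟨_, rfl⟩) fun u hu =>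
      (hW.center hu).imp And.left fun h' => hg z ▸ h u (Finset.mem_filter.mpr ⟨hu, h'.2⟩)
    rw [him] at this
    obtain ⟨z', hz', e⟩ := this
    rwa [← hfg z, ← e, hfg]
  · obtain ⟨π, h1, h2, -⟩ := hW.exists_proj
    obtain ⟨κ, hκ, e⟩ := Z.hdual (φ ∘ₗ H ∘ₗ π) fun v hv => by
      by_cases hv' : v ∈ W
      · obtain ⟨z, rfl⟩ := hsur v hv'
        simp only [LinearMap.comp_apply, h1 _ hv', hH']
        exact hφ z ((hS' z).mpr hv')
      · simp [h2 v hv hv']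
    refine ⟨κ, fun u hu => hκ u (Finset.mem_filter.mp hu).1, fun q => ?_⟩
    have h3 : π (G q) = G q :=
      LinearMap.eqOn_span (f := π) (g := LinearMap.id) h1 (hGr.le ⟨_, rfl⟩)
    have h4 := LinearMap.congr_fun e (G q)
    simp only [LinearMap.comp_apply, h3, hH', LinearMap.sum_apply, LinearMap.smul_apply,
      smul_eq_mul] at h4
    rw [h4, Finset.sum_filter]
    refine Finset.sum_congr rfl fun u hu => ?_
    split_ifs with h5
    · rfl
    · rcases hW.center hu with h | h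
      · rw [(Submodule.span_le.mpr h.1 : _ ≤ LinearMap.ker u) (hGr.le ⟨q, rfl⟩), mul_zero]
      · exact absurd h.2 h5

end Good

end Pool.Agent.P.MP_92a118_co.J
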