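import Mathlib
import Pool.Agent.P.MP_92a118_co.J.B3

/-! The free join decomposition and the sharp bound for lattice polytopes of real index. -/

namespace Pool.Agent.P.MP_92a118_co.J

open Module Finset

theorem freeJoin_eq {ι κ : Type} [DecidableEq κ] (X : κ → Set (ι → ℝ)) :
    freeJoin (fun k => convexHull ℝ (X k)) = convexHull ℝ (⋃ k, (fun x : ι → ℝ =>
      (Sum.elim (fun p : κ × ι => if p.1 = k then x p.2 else 0) (Pi.single k 1) :
        (κ × ι) ⊕ κ → ℝ)) '' X k) := by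
  unfold freeJoin cayley
  simp only [Set.image_image]
  apply Set.Subset.antisymm
  · refine convexHull_min (Set.iUnion_subset fun k => ?_) (convex_convexHull ℝ _)
    let A : (ι → ℝ) →ᵃ[ℝ] ((κ × ι) ⊕ κ → ℝ) :=
      { toFun := fun x => Sum.elim (fun p : κ × ι => if p.1 = k then x p.2 else 0) (Pi.single k 1)
        linear :=
          { toFun := fun x => Sum.elim (fun p : κ × ι => if p.1 = k then x p.2 else 0) 0
            map_add' := fun x y => by
              ext (p | i)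
              · by_cases h : p.1 = k <;> simp [h]
              · simp
            map_smul' := fun c x => by ext (p | i) <;> simp }
        map_vadd' := fun x y => by
          ext (p | i)
          · by_cases h : p.1 = k <;> simp [h]
          · simp }
    exact (A.image_convexHull (X k)).subset.trans
      (convexHull_mono (Set.subset_iUnion_of_subset k subset_rfl))
  · exact convexHull_mono (Set.iUnion_mono fun k => Set.image_mono (subset_convexHull ℝ _))

variable {d : ℕ} {Z : Set0 (ℝ × (Fin d → ℝ))}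

/-- A partition of the generators along which the space and the lattice split. -/
structure Split (Z : Set0 (ℝ × (Fin d → ℝ))) {κ : Type} [Fintype κ] [DecidableEq κ]
    (W : κ → Finset (ℝ × (Fin d → ℝ)))
    (π : κ → (ℝ × (Fin d → ℝ)) →ₗ[ℝ] (ℝ × (Fin d → ℝ))) : Prop where
  sub : ∀ k, W k ⊆ Z.V
  cover : ∀ v ∈ Z.V, ∃ k, v ∈ W k
  app : ∀ k l, ∀ v ∈ W k, π l v = if l = k then v else 0
  lat : ∀ k x, IsLat x → IsLat (π k x)

namespace Split

variable {κ : Type} [Fintype κ] [DecidableEq κ] {W : κ → Finset (ℝ × (Fin d → ℝ))}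
  {π : κ → (ℝ × (Fin d → ℝ)) →ₗ[ℝ] (ℝ × (Fin d → ℝ))} (h : Split Z W π)

include h

theorem sum (x : ℝ × (Fin d → ℝ)) : ∑ k, π k x = x := by
  have := Z.ext_V (f := ∑ k, π k) (g := LinearMap.id) fun v hv => by
    obtain ⟨k, hk⟩ := h.cover v hv
    simp [LinearMap.sum_apply, h.app k _ v hk]
  simpa [LinearMap.sum_apply] using LinearMap.congr_fun this x

theorem dim : ∑ k, finrank ℝ (Submodule.span ℝ (W k : Set (ℝ × (Fin d → ℝ)))) ≤ d + 1 := by
  let f : (∀ k, Submodule.span ℝ (W k : Set (ℝ × (Fin d → ℝ)))) →ₗ[ℝ] ℝ × (Fin d → ℝ) :=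
    ∑ k, (Submodule.subtype _) ∘ₗ LinearMap.proj k
  have e : ∀ x l, π l (f x) = x l := by
    intro x l
    simp only [f, LinearMap.sum_apply, map_sum, LinearMap.comp_apply, LinearMap.proj_apply,
      Submodule.subtype_apply]
    rw [Finset.sum_eq_single l (fun k _ hk => LinearMap.eqOn_span (f := π l) (g := 0)
      (fun v hv => by simp [h.app k l v hv, hk.symm]) (x k).2) (by simp)]
    exact LinearMap.eqOn_span (f := π l) (g := LinearMap.id)
      (fun v hv => by simp [h.app l l v hv]) (x l).2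
  have := LinearMap.finrank_le_finrank_of_injective (f := f) fun x y hxy =>
    funext fun l => Subtype.ext (by rw [← e, hxy, e])
  rw [Module.finrank_pi_fintype] at this
  simpa [add_comm] using this

theorem iso (hZ : Good Z) (S : Finset (Fin d → ℝ)) (hV : ∀ v, v ∈ Z.V ↔ ∃ x ∈ S, v = (1, x)) :
    LatticeIso (convexHull ℝ (S : Set (Fin d → ℝ)))
      (freeJoin fun k => convexHull ℝ (dn (W k) : Set (Fin d → ℝ))) := by
  let Φ : (ℝ × (Fin d → ℝ)) →ₗ[ℝ] ((κ × Fin d) ⊕ κ → ℝ) := LinearMap.pi (Sum.elim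
    (fun p => LinearMap.proj p.2 ∘ₗ LinearMap.snd ℝ _ _ ∘ₗ π p.1)
    fun k => LinearMap.fst ℝ _ _ ∘ₗ π k)
  let f := Φ.toAffineMap.comp (up d)
  have f1 : ∀ x k j, f x (Sum.inl (k, j)) = (π k (1, x)).2 j := fun _ _ _ => rfl
  have f2 : ∀ x k, f x (Sum.inr k) = (π k (1, x)).1 := fun _ _ => rfl
  have f3 : ∀ k x, ((1 : ℝ), x) ∈ W k → f x =
      Sum.elim (fun p : κ × Fin d => if p.1 = k then x p.2 else 0) (Pi.single k 1) := by
    intro k x hx
    ext (⟨l, j⟩ | l)
    · rw [f1, h.app k l _ hx]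
      by_cases e : l = k <;> simp [e]
    · rw [f2, h.app k l _ hx]
      by_cases e : l = k <;> simp [e]
  have key : (freeJoin fun k => convexHull ℝ (dn (W k) : Set (Fin d → ℝ))) =
      f '' convexHull ℝ (S : Set (Fin d → ℝ)) := by
    rw [freeJoin_eq, AffineMap.image_convexHull]
    refine congrArg _ (Set.ext fun w => ?_)
    simp only [Set.mem_iUnion, Set.mem_image, Finset.mem_coe]
    constructor
    · rintro ⟨k, x, hx, rfl⟩
      rw [hZ.mem_dn (h.sub k)] at hx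
      obtain ⟨y, hy, e⟩ := (hV _).mp (h.sub k hx)
      obtain rfl : x = y := (Prod.ext_iff.mp e).2
      exact ⟨x, hy, f3 k x hx⟩
    · rintro ⟨x, hx, rfl⟩
      obtain ⟨k, hk⟩ := h.cover _ ((hV _).mpr ⟨x, hx, rfl⟩)
      exact ⟨k, x, (hZ.mem_dn (h.sub k)).mpr hk, (f3 k x hk).symm⟩
  rw [key]
  refine latticeIso_image _ f (fun x y e => ?_) fun x => ⟨fun hx => ?_, fun hx => ?_⟩
  · have : ((1 : ℝ), x) = (1, y) := by
      rw [← h.sum (1, x), ← h.sum (1, y)]
      exact Finset.sum_congr rfl fun k _ => Prod.ext (congrFun e (Sum.inr k))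
        (funext fun j => congrFun e (Sum.inl (k, j)))
    exact (Prod.ext_iff.mp this).2
  · have := IsLat.sum Finset.univ (fun k => π k (1, x)) fun k =>
      ⟨hx (Sum.inr k), fun j => hx (Sum.inl (k, j))⟩
    rw [h.sum] at this
    exact this.2
  · rintro (⟨k, j⟩ | k)
    · exact (h.lat k (1, x) ⟨⟨1, by simp⟩, hx⟩).2 j
    · exact (h.lat k (1, x) ⟨⟨1, by simp⟩, hx⟩).1

end Split

theorem exists_split (hZ : Good Z) {t : ℕ} {W : Fin t → Finset (ℝ × (Fin d → ℝ))} {s : Fin t → ℕ}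
    (hW : ∀ k, Z.IsBlock (W k) (s k)) (hd : ∀ k l, k ≠ l → Disjoint (W k) (W l)) :
    ∃ W0 π, Split Z (fun k : Option (Fin t) => k.elim W0 W) π ∧
      ∀ k x, (∀ u ∈ Z.U, ∃ z : ℤ, u x = z) → IsLat (π (some k) x) := by
  classical
  choose π h1 h2 h3 using fun k => (hW k).exists_proj
  have h4 : ∀ k l, ∀ v ∈ W k, π l v = if l = k then v else 0 := by
    intro k l v hv
    split_ifs with e
    · exact e ▸ h1 k v hv
    · exact h2 l v ((hW k).sub hv) fun hc => Finset.disjoint_left.mp (hd l k e) hc hv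
  have h5 : ∀ k x, (∀ u ∈ Z.U, ∃ z : ℤ, u x = z) → IsLat (π k x) := fun k x hx =>
    hZ.proj_lat (hW k) (h1 k) (h2 k) (h3 k) hx
  refine ⟨Z.V.filter fun v => ∀ k, v ∉ W k, fun k => k.elim (LinearMap.id - ∑ k, π k) π,
    ⟨?_, fun v hv => ?_, ?_, ?_⟩, h5⟩
  · rintro (_ | k)
    exacts [Finset.filter_subset _ _, (hW k).sub]
  · by_cases h : ∃ k, v ∈ W k
    · exact h.elim fun k hk => ⟨some k, hk⟩
    · exact ⟨none, Finset.mem_filter.mpr ⟨hv, not_exists.mp h⟩⟩
  · rintro (_ | k) (_ | l) v hv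
    · have := Finset.mem_filter.mp hv
      simp [LinearMap.sum_apply, fun k => h2 k v this.1 (this.2 k)]
    · have := Finset.mem_filter.mp hv
      simp [h2 l v this.1 (this.2 l)]
    · simp [LinearMap.sum_apply, fun l => h4 k l v hv]
    · simpa using h4 k l v hv
  · rintro (_ | k) x hx
    · simpa [LinearMap.sum_apply] using
        hx.sub (IsLat.sum Finset.univ _ fun k => h5 k x fun u hu => hZ.int u hu x hx)
    · exact h5 k x fun u hu => hZ.int u hu x hx

theorem pyramid_of_point (hZ : Good Z) (S : Finset (Fin d → ℝ)) (hS : ∀ x ∈ S, IsLatticePoint x)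
    (hV : ∀ v, v ∈ Z.V ↔ ∃ x ∈ S, v = (1, x)) {W : Finset (ℝ × (Fin d → ℝ))}
    (hW : Z.IsBlock W 0) : IsLatticePyramid (convexHull ℝ (S : Set (Fin d → ℝ))) := by
  obtain ⟨v, hv⟩ := hW.nonempty
  obtain ⟨x0, hx0, rfl⟩ := (hV v).mp (hW.sub hv)
  have hne : ((1 : ℝ), x0) ≠ 0 := fun h => one_ne_zero (congrArg Prod.fst h)
  have hone : ∀ w ∈ W, w = (1, x0) := by
    intro w hw
    obtain ⟨c, hc⟩ := (finrank_eq_one_iff_of_nonzero' (⟨_, Submodule.subset_span hv⟩ :
      Submodule.span ℝ (W : Set (ℝ × (Fin d → ℝ)))) (fun h => hne (congrArg Subtype.val h))).mp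
      hW.dim ⟨w, Submodule.subset_span hw⟩
    have e : c • ((1 : ℝ), x0) = w := congrArg Subtype.val hc
    have e1 : c = 1 := by simpa [hZ.one w (hW.sub hw)] using congrArg Prod.fst e
    rw [← e, e1, one_smul]
  obtain ⟨u, hu, hu0⟩ : ∃ u ∈ Z.U, u (1, x0) ≠ 0 := by
    by_contra hc
    push Not at hc
    exact hne (Z.separates hc)
  obtain ⟨h1, h2⟩ := (hW.cut u hu).resolve_left fun h => hu0 (h _ hv)
  obtain ⟨k, hk⟩ := Z.hint u hu _ (hW.sub hv)
  have h3 : k = 1 := by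
    have e1 : k ≤ 1 := by exact_mod_cast hk ▸ h2 _ (hW.sub hv)
    have e2 : k ≠ 0 := by exact_mod_cast hk ▸ hu0
    omega
  obtain ⟨z, hz⟩ := hZ.int u hu (1, 0) ⟨⟨1, by simp⟩, fun i => ⟨0, by simp⟩⟩
  have hy := fun i => hZ.int u hu _ (isLat_single i)
  obtain ⟨a, y, rfl⟩ := exists_uf u
  obtain rfl : a = z := by simpa [uf_apply] using hz
  refine isLatticePyramid_of_apex S hS z y (fun i => by simpa [uf_apply] using hy i) x0 hx0
    (by simpa [uf_apply, h3] using hk) fun x hx hne' => ?_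
  simpa [uf_apply] using h1 (1, x) ((hV _).mpr ⟨x, hx, rfl⟩)
    fun hc => hne' (Prod.ext_iff.mp (hone _ hc)).2

theorem main (d : ℕ) (P : Set (Fin d → ℝ)) (r : ℝ) (hd : 0 < d) (hr : 0 < r) (h : HasIndex P r) :
    (∃ (t : ℕ) (Q : Option (Fin t) → Set (Fin d → ℝ)) (s : Fin t → ℕ), 2 * r ≤ d + 1 + t ∧
      LatticeIso P (freeJoin Q) ∧ IsLatticePolytope (Q none) ∧
      ∀ k, IsGorenstein (Q (some k)) (2 * s k) (s k + 1) ∧ IsCompressed (Q (some k))) ∧
    (¬ IsLatticePyramid P → 3 * r ≤ 2 * (d + 1) ∧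
      (3 * r = 2 * (d + 1) → ∃ s : ℕ, d + 1 = 3 * s ∧ LatticeIso P (cayleyC s))) := by
  obtain ⟨⟨S, hS, rfl⟩, m, h0, hT⟩ := h
  obtain ⟨Z, hV, hlam, hU, -, hm⟩ := exists_set0 hd S hS hr m h0 hT
  have hZ : Good Z := ⟨fun v hv => by obtain ⟨x, -, rfl⟩ := (hV v).mp hv; rfl,
    fun v hv => by obtain ⟨x, hx, rfl⟩ := (hV v).mp hv; exact hS x hx, hU⟩
  obtain ⟨t, W, s, hW, hdis, hle⟩ := Z.exists_blocks
  obtain ⟨W0, π, hs, hπ⟩ := exists_split hZ hW hdis
  have hle' : 2 * r ≤ d + 1 + t := by simpa [hlam, add_comm] using hle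
  refine ⟨⟨t, _, s, hle', hs.iso hZ S hV, ⟨_, hZ.dn_lat (hs.sub none), rfl⟩,
    fun k => ⟨hZ.gorenstein (hW k), hZ.compressed (hW k)⟩⟩, fun hp => ?_⟩
  have h1 : ∀ k, 3 ≤ finrank ℝ (Submodule.span ℝ (W k : Set (ℝ × (Fin d → ℝ)))) := fun k => by
    have : s k ≠ 0 := fun e => hp (pyramid_of_point hZ S hS hV (e ▸ hW k))
    rw [(hW k).dim]; omega
  have h2 : finrank ℝ (Submodule.span ℝ (W0 : Set (ℝ × (Fin d → ℝ)))) +
      ∑ k, finrank ℝ (Submodule.span ℝ (W k : Set (ℝ × (Fin d → ℝ)))) ≤ d + 1 :=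
    (Fintype.sum_option fun k : Option (Fin t) => finrank ℝ (Submodule.span ℝ
      ((k.elim W0 W : Finset _) : Set (ℝ × (Fin d → ℝ))))).ge.trans hs.dim
  have h3 := Finset.card_nsmul_le_sum Finset.univ _ 3 fun k _ => h1 k
  simp only [Finset.card_univ, Fintype.card_fin, smul_eq_mul] at h3
  have h4 : t * 3 ≤ d + 1 := by omega
  have h5 : (t : ℝ) * 3 ≤ d + 1 := by exact_mod_cast h4
  refine ⟨by linarith, fun he => ?_⟩
  have h6 : d + 1 ≤ t * 3 := by exact_mod_cast (by linarith : (d : ℝ) + 1 ≤ t * 3)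
  have h7 : d + 1 = 3 * t := by omega
  have h8 : (d : ℝ) + 1 = 3 * t := by exact_mod_cast h7
  obtain rfl : r = (2 * t : ℕ) := by push_cast; linarith
  have h9 : ∀ x, π none x = 0 := fun x =>
    LinearMap.congr_fun (Z.ext_V (f := π none) (g := 0) fun v hv => by
      obtain ⟨k, hk⟩ := hs.cover v hv
      rw [hs.app k none v hk]
      rcases k with _ | k
      · have : Submodule.span ℝ (W0 : Set (ℝ × (Fin d → ℝ))) = ⊥ :=
          Submodule.finrank_eq_zero.mp (by omega)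
        simpa using this.le (Submodule.subset_span hk)
      · simp) x
  have h10 : IsLat (∑ v ∈ Z.V, Z.lam v • v) := by
    rw [← hs.sum (∑ v ∈ Z.V, Z.lam v • v), Fintype.sum_option, h9, zero_add]
    exact IsLat.sum _ _ fun k => hπ k _ fun u hu => ⟨1, by simpa [map_sum] using Z.hU1 u hu⟩
  refine ⟨t, h7, unique_extremal t d (2 * t) (by omega) h7 rfl _ ⟨S, hS, rfl⟩ m
    ⟨latticePolytope_aff S hS _ m ?_, h0, hT⟩ hp⟩
  simpa [← hm, Prod.snd_sum] using h10.2

end Pool.Agent.P.MP_92a118_co.J
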