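import Mathlib
import Pool.Agent.P.MP_92a118_co.J.Main2

/-! The Gorenstein case, in any ambient space, is a special case of the theorem for real index. -/

namespace Pool.Agent.P.MP_92a118_co.J

theorem unique_cor (s d r : ℕ) (hs : 1 ≤ s) (hd : d = 3 * s - 1) (hdeg : (s : ℤ) = d + 1 - r)
    (N : ℕ) (P : Set (Fin N → ℝ)) (hP : IsGorenstein P d r) (hpyr : ¬ IsLatticePyramid P) :
    LatticeIso P (cayleyC s) := by
  obtain ⟨-, P', hiso, hP', -, m0, -, -, h0, hT⟩ := hP
  have h1 : 3 * r = 2 * (d + 1) := by omega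
  obtain ⟨s', h2, h3⟩ := ((main d P' r (by omega) (by exact_mod_cast (by omega : 0 < r))
    ⟨hP', m0, h0, hT⟩).2 fun ⟨k, Q, hQ', h⟩ => hpyr ⟨k, Q, hQ', hiso.trans h⟩).2
    (by exact_mod_cast h1)
  obtain rfl : s' = s := by omega
  exact hiso.trans h3

end Pool.Agent.P.MP_92a118_co.J
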